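import Mathlib

open Metric Set Filter Topology

set_option linter.unusedSectionVars false
set_option linter.unusedVariables false

namespace Pool.Helper791.Fre

section Cum

variable {E : Type*} [AddCommGroup E] [Module ℂ E]

/-- cumulated seminorms -/
noncomputable def cum (p : ℕ → Seminorm ℂ E) (n : ℕ) : Seminorm ℂ E :=
  Seminorm.of (fun x => ∑ i ∈ Finset.range (n + 1), p i x)
    (fun x y => by
      rw [← Finset.sum_add_distrib]
      exact Finset.sum_le_sum fun i _ => map_add_le_add (p i) x y)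
    (fun c x => by
      rw [Finset.mul_sum]
      exact Finset.sum_congr rfl fun i _ => map_smul_eq_mul (p i) c x)

theorem cum_apply (p : ℕ → Seminorm ℂ E) (n : ℕ) (x : E) :
    cum p n x = ∑ i ∈ Finset.range (n + 1), p i x := rfl

theorem cum_mono (p : ℕ → Seminorm ℂ E) {n m : ℕ} (h : n ≤ m) (x : E) :
    cum p n x ≤ cum p m x := by
  rw [cum_apply, cum_apply]
  refine Finset.sum_le_sum_of_subset_of_nonneg ?_ fun i _ _ => apply_nonneg _ _
  exact Finset.range_mono (by omega)

theorem le_cum (p : ℕ → Seminorm ℂ E) {i n : ℕ} (h : i ≤ n) (x : E) : p i x ≤ cum p n x := by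
  rw [cum_apply]
  exact Finset.single_le_sum (f := fun i => p i x) (fun i _ => apply_nonneg _ _)
    (Finset.mem_range.2 (by omega))

theorem cum_tendsto {ι : Type*} (p : ℕ → Seminorm ℂ E) {l : Filter ι} {u : ι → E}
    (h : ∀ n, Tendsto (fun k => p n (u k)) l (𝓝 0)) (n : ℕ) :
    Tendsto (fun k => cum p n (u k)) l (𝓝 0) := by
  simp only [cum_apply]
  have := tendsto_finsetSum (Finset.range (n + 1)) fun i (_ : i ∈ Finset.range (n + 1)) => h i
  simpa using this

theorem cum_continuous [TopologicalSpace E] {p : ℕ → Seminorm ℂ E} (hp : WithSeminorms p)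
    (n : ℕ) : Continuous (cum p n) := by
  have : (fun x => cum p n x) = fun x => ∑ i ∈ Finset.range (n + 1), p i x := rfl
  show Continuous (fun x => cum p n x)
  rw [this]
  exact continuous_finsetSum _ fun i _ => hp.continuous_seminorm i

theorem nhds_cum [TopologicalSpace E] {p : ℕ → Seminorm ℂ E} (hp : WithSeminorms p)
    {x : E} {U : Set E} (hU : U ∈ 𝓝 x) :
    ∃ n : ℕ, ∃ δ > 0, ∀ y, cum p n (y - x) < δ → y ∈ U := by
  obtain ⟨s, r, hr, hs⟩ := (hp.mem_nhds_iff x U).1 hU
  obtain ⟨N, hN⟩ : ∃ N, ∀ i ∈ s, i ≤ N := ⟨s.sup id, fun i hi => Finset.le_sup (f := id) hi⟩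
  refine ⟨N, r, hr, fun y hy => hs ?_⟩
  rw [Seminorm.mem_ball]
  refine lt_of_le_of_lt ?_ hy
  exact Seminorm.finset_sup_apply_le (apply_nonneg _ _) fun i hi => le_cum p (hN i hi) _

theorem closure_cum [TopologicalSpace E] [IsTopologicalAddGroup E] {p : ℕ → Seminorm ℂ E}
    (hp : WithSeminorms p) {x : E} {T : Set E} (h : x ∈ closure T) (n : ℕ) {ε : ℝ} (hε : 0 < ε) :
    ∃ y ∈ T, cum p n (x - y) < ε := by
  have hU : {y | cum p n (x - y) < ε} ∈ 𝓝 x := by
    have hc : Continuous fun y => cum p n (x - y) :=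
      (cum_continuous hp n).comp (continuous_const.sub continuous_id)
    refine (isOpen_lt hc continuous_const).mem_nhds ?_
    simpa using hε
  obtain ⟨y, hy1, hy2⟩ := mem_closure_iff_nhds.1 h _ hU
  exact ⟨y, hy2, hy1⟩

/-- completeness in terms of sequences -/
theorem complete_seq [UniformSpace E] [IsUniformAddGroup E] [CompleteSpace E]
    {p : ℕ → Seminorm ℂ E} (hp : WithSeminorms p) (u : ℕ → E)
    (h : ∀ n, ∀ ε > 0, ∃ N, ∀ k ≥ N, ∀ l ≥ N, p n (u k - u l) < ε) :
    ∃ x, ∀ n, Tendsto (fun k => p n (u k - x)) atTop (𝓝 0) := by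
  have hc : CauchySeq u := by
    rw [cauchySeq_iff_tendsto, uniformity_eq_comap_nhds_zero E, tendsto_comap_iff,
      hp.tendsto_nhds]
    intro i ε hε
    obtain ⟨N, hN⟩ := h i ε hε
    filter_upwards [eventually_ge_atTop (N, N)] with ⟨a, b⟩ hab
    have h1 := hN b hab.2 a hab.1
    simpa using h1
  obtain ⟨x, hx⟩ := cauchySeq_tendsto_of_complete hc
  refine ⟨x, fun n => ?_⟩
  have hcont : Continuous fun y => p n (y - x) :=
    (hp.continuous_seminorm n).comp (continuous_id.sub continuous_const)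
  have h2 := (hcont.tendsto x).comp hx
  simp only [sub_self, map_zero] at h2
  exact h2

end Cum

variable {A B : Type*} [AddCommGroup A] [Module ℂ A] [UniformSpace A] [IsUniformAddGroup A]
  [CompleteSpace A]
  [AddCommGroup B] [Module ℂ B] [UniformSpace B] [IsUniformAddGroup B]
  [CompleteSpace B]

theorem baire_of {p : ℕ → Seminorm ℂ A} (hp : WithSeminorms p) : BaireSpace A := by
  have := hp.firstCountableTopology
  have : (uniformity A).IsCountablyGenerated := IsUniformAddGroup.uniformity_countably_generated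
  infer_instance

/-- first step of the closed graph theorem -/
theorem cg_step {p : ℕ → Seminorm ℂ A} {q : ℕ → Seminorm ℂ B} (hp : WithSeminorms p)
    (f : A →ₗ[ℂ] B) (n : ℕ) {ε : ℝ} (hε : 0 < ε) :
    ∃ m : ℕ, ∃ δ > 0, ∀ x, cum p m x < δ → ∀ m' : ℕ, ∀ ε' > 0,
      ∃ y, cum q n (f y) ≤ ε ∧ cum p m' (x - y) < ε' := by
  have := baire_of hp
  obtain ⟨k, hk⟩ := nonempty_interior_of_iUnion_of_closed
    (f := fun k : ℕ => closure {x : A | cum q n (f x) ≤ k}) (fun _ => isClosed_closure) (by
      rw [eq_univ_iff_forall]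
      intro x
      obtain ⟨k, hk⟩ := exists_nat_ge (cum q n (f x))
      exact mem_iUnion.2 ⟨k, subset_closure hk⟩)
  obtain ⟨x0, hx0⟩ := hk
  obtain ⟨m, δ, hδ, hm⟩ := nhds_cum hp (isOpen_interior.mem_nhds hx0)
  have hball : ∀ y, cum p m (y - x0) < δ → y ∈ closure {x : A | cum q n (f x) ≤ k} :=
    fun y hy => interior_subset (hm y hy)
  set K : ℝ := 2 * (k : ℝ) + 1 with hK
  have hK0 : 0 < K := by positivity
  -- unscaled version
  have h1 : ∀ z, cum p m z < δ → ∀ m' : ℕ, ∀ ε' > 0,
      ∃ y, cum q n (f y) ≤ K ∧ cum p m' (z - y) < ε' := by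
    intro z hz m' ε' hε'
    obtain ⟨y1, hy1, hy1'⟩ := closure_cum hp (hball (x0 + z) (by simpa using hz)) m'
      (half_pos hε')
    obtain ⟨y2, hy2, hy2'⟩ := closure_cum hp (hball x0 (by simpa using hδ)) m'
      (half_pos hε')
    refine ⟨y1 - y2, ?_, ?_⟩
    · rw [map_sub]
      refine (map_sub_le_add _ _ _).trans ?_
      have a1 : cum q n (f y1) ≤ k := hy1
      have a2 : cum q n (f y2) ≤ k := hy2
      rw [hK]; linarith
    · have e1 : z - (y1 - y2) = (x0 + z - y1) - (x0 - y2) := by abel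
      rw [e1]
      refine (map_sub_le_add _ _ _).trans_lt ?_
      linarith
  refine ⟨m, δ * (ε / K), by positivity, fun x hx m' ε' hε' => ?_⟩
  have hc0 : (0 : ℝ) < K / ε := by positivity
  obtain ⟨y, hy1, hy2⟩ := h1 (((K / ε : ℝ) : ℂ) • x) (by
    rw [map_smul_eq_mul, Complex.norm_real, Real.norm_of_nonneg hc0.le]
    calc K / ε * cum p m x < K / ε * (δ * (ε / K)) := by gcongr
      _ = δ := by field_simp) m' (K / ε * ε') (by positivity)
  refine ⟨((ε / K : ℝ) : ℂ) • y, ?_, ?_⟩
  · rw [map_smul, map_smul_eq_mul, Complex.norm_real, Real.norm_of_nonneg (by positivity)]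
    calc ε / K * cum q n (f y) ≤ ε / K * K := by gcongr
      _ = ε := by field_simp
  · have e1 : x - ((ε / K : ℝ) : ℂ) • y = ((ε / K : ℝ) : ℂ) • (((K / ε : ℝ) : ℂ) • x - y) := by
      rw [smul_sub, smul_smul, ← Complex.ofReal_mul]
      have : ε / K * (K / ε) = 1 := by field_simp
      rw [this, Complex.ofReal_one, one_smul]
    rw [e1, map_smul_eq_mul, Complex.norm_real, Real.norm_of_nonneg (by positivity)]
    calc ε / K * cum p m' (((K / ε : ℝ) : ℂ) • x - y) < ε / K * (K / ε * ε') := by gcongr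
      _ = ε' := by field_simp

/-- closed graph theorem for Fréchet spaces -/
theorem closed_graph {p : ℕ → Seminorm ℂ A} {q : ℕ → Seminorm ℂ B} (hp : WithSeminorms p)
    (hq : WithSeminorms q) (f : A →ₗ[ℂ] B)
    (hgraph : ∀ (u : ℕ → A) (a : A) (b : B), (∀ n, Tendsto (fun k => p n (u k - a)) atTop (𝓝 0)) →
      (∀ n, Tendsto (fun k => q n (f (u k) - b)) atTop (𝓝 0)) → ∀ n, q n (b - f a) = 0) :
    Continuous f := by
  -- continuity at level n0
  have main : ∀ n0 : ℕ, ∃ m : ℕ, ∃ δ > 0, ∀ x, cum p m x < δ → cum q n0 (f x) ≤ 2 := by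
    intro n0
    choose m δ hδ hstep using fun j : ℕ => cg_step (p := p) (q := q) hp f (n0 + j)
      (ε := (1 / 2) ^ j) (by positivity)
    refine ⟨m 0, δ 0, hδ 0, fun x hx => ?_⟩
    -- the recursion
    have hrec : ∀ j : ℕ, ∀ z : {z : A // cum p (m j) z < δ j},
        ∃ y : A, cum q (n0 + j) (f y) ≤ (1 / 2) ^ j ∧
          cum p (max (m (j + 1)) (j + 1)) (z.1 - y) < min (δ (j + 1)) ((1 / 2) ^ (j + 1)) :=
      fun j z => hstep j z.1 z.2 _ _ (lt_min (hδ _) (by positivity))
    choose F hF1 hF2 using hrec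
    let Z : (j : ℕ) → {z : A // cum p (m j) z < δ j} := fun j =>
      Nat.rec ⟨x, hx⟩ (fun j z => ⟨z.1 - F j z,
        ((cum_mono p (le_max_left _ _) _).trans_lt (hF2 j z)).trans_le (min_le_left _ _)⟩) j
    have hZ0 : (Z 0).1 = x := rfl
    have hZs : ∀ j, (Z (j + 1)).1 = (Z j).1 - F j (Z j) := fun j => rfl
    set y : ℕ → A := fun j => F j (Z j) with hy
    have hsum : ∀ j, (∑ i ∈ Finset.range j, y i) = x - (Z j).1 := by
      intro j
      induction j with
      | zero => simp [hZ0]
      | succ j ih => rw [Finset.sum_range_succ, ih, hZs]; abel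
    have hZlim : ∀ n, Tendsto (fun j => p n ((Z j).1)) atTop (𝓝 0) := by
      intro n
      rw [← tendsto_add_atTop_iff_nat 1]
      have hl : Tendsto (fun j : ℕ => (1 / 2 : ℝ) ^ (j + 1)) atTop (𝓝 0) :=
        (tendsto_pow_atTop_nhds_zero_of_lt_one (by norm_num) (by norm_num)).comp
          (tendsto_add_atTop_nat 1)
      refine tendsto_of_tendsto_of_tendsto_of_le_of_le' tendsto_const_nhds hl
        (Eventually.of_forall fun _ => apply_nonneg _ _) ?_
      filter_upwards [eventually_ge_atTop n] with j hj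
      have h1 := (hF2 j (Z j)).le.trans (min_le_right _ _)
      refine le_trans ?_ h1
      rw [hZs]
      exact le_cum p (le_trans (by omega) (le_max_right _ _)) _
    -- partial sums in B
    have hB : ∀ j i, j ≤ n0 + i → q j (f (y i)) ≤ (1 / 2) ^ i := fun j i hji =>
      (le_cum q hji _).trans (hF1 i (Z i))
    have tail : ∀ j N k, j ≤ n0 + N → q j ((∑ i ∈ Finset.range (N + k), f (y i)) -
        ∑ i ∈ Finset.range N, f (y i)) ≤ 2 * (1 / 2) ^ N - 2 * (1 / 2) ^ (N + k) := by
      intro j N k hj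
      induction k with
      | zero => simp
      | succ k ih =>
        rw [← add_assoc, Finset.sum_range_succ]
        have e1 : (∑ i ∈ Finset.range (N + k), f (y i)) + f (y (N + k)) -
            ∑ i ∈ Finset.range N, f (y i) = ((∑ i ∈ Finset.range (N + k), f (y i)) -
            ∑ i ∈ Finset.range N, f (y i)) + f (y (N + k)) := by abel
        rw [e1]
        have h1 := hB j (N + k) (by omega)
        have h2 := map_add_le_add (q j) ((∑ i ∈ Finset.range (N + k), f (y i)) -
          ∑ i ∈ Finset.range N, f (y i)) (f (y (N + k)))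
        have h3 : (1 / 2 : ℝ) ^ (N + k + 1) = (1 / 2) ^ (N + k) * (1 / 2) := pow_succ _ _
        rw [h3]
        linarith
    have tail' : ∀ j N k, j ≤ n0 + N → N ≤ k → q j ((∑ i ∈ Finset.range k, f (y i)) -
        ∑ i ∈ Finset.range N, f (y i)) ≤ 2 * (1 / 2) ^ N := by
      intro j N k hj hk
      obtain ⟨l, rfl⟩ := Nat.exists_eq_add_of_le hk
      have h1 := tail j N l hj
      have h2 : (0 : ℝ) < (1 / 2) ^ (N + l) := by positivity
      linarith
    obtain ⟨b, hb⟩ := complete_seq hq (fun k => ∑ i ∈ Finset.range k, f (y i)) (by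
      intro n ε hε
      have hlim : Tendsto (fun k : ℕ => 4 * (1 / 2 : ℝ) ^ k) atTop (𝓝 0) := by
        simpa using (tendsto_pow_atTop_nhds_zero_of_lt_one (by norm_num : (0 : ℝ) ≤ 1 / 2)
          (by norm_num)).const_mul 4
      obtain ⟨N, hN⟩ := (hlim.eventually (gt_mem_nhds hε)).exists_forall_of_atTop
      refine ⟨max N n, fun k hk l hl => ?_⟩
      have h1 := tail' n (max N n) k (le_trans (le_max_right N n) (by omega)) hk
      have h2 := tail' n (max N n) l (le_trans (le_max_right N n) (by omega)) hl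
      have h3 := hN (max N n) (le_max_left _ _)
      have e1 : (∑ i ∈ Finset.range k, f (y i)) - ∑ i ∈ Finset.range l, f (y i) =
        ((∑ i ∈ Finset.range k, f (y i)) - ∑ i ∈ Finset.range (max N n), f (y i)) -
        ((∑ i ∈ Finset.range l, f (y i)) - ∑ i ∈ Finset.range (max N n), f (y i)) := by abel
      rw [e1]
      have h4 := map_sub_le_add (q n) ((∑ i ∈ Finset.range k, f (y i)) -
        ∑ i ∈ Finset.range (max N n), f (y i))
        ((∑ i ∈ Finset.range l, f (y i)) - ∑ i ∈ Finset.range (max N n), f (y i))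
      linarith)
    have hgr := hgraph (fun k => ∑ i ∈ Finset.range k, y i) x b
      (fun n => by
        have := hZlim n
        refine this.congr fun k => ?_
        rw [hsum k]
        have : x - (Z k).1 - x = - (Z k).1 := by abel
        rw [this, map_neg_eq_map])
      (fun n => by
        refine (hb n).congr fun k => ?_
        rw [map_sum])
    -- bound for each q j, j ≤ n0
    have hcum : ∀ k, cum q n0 (∑ i ∈ Finset.range k, f (y i)) ≤ 2 := by
      intro k
      have hh : ∀ k, cum q n0 (∑ i ∈ Finset.range k, f (y i)) ≤ 2 - 2 * (1 / 2) ^ k := by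
        intro k
        induction k with
        | zero => simp
        | succ k ih =>
          rw [Finset.sum_range_succ]
          have h1 : cum q n0 (f (y k)) ≤ (1 / 2) ^ k :=
            (cum_mono q (by omega) _).trans (hF1 k (Z k))
          have h2 := map_add_le_add (cum q n0) (∑ i ∈ Finset.range k, f (y i)) (f (y k))
          have h3 : (1 / 2 : ℝ) ^ (k + 1) = (1 / 2) ^ k * (1 / 2) := pow_succ _ _
          rw [h3]
          linarith
      have h2 : (0 : ℝ) < (1 / 2) ^ k := by positivity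
      linarith [hh k]
    have hlimc : Tendsto (fun k => cum q n0 ((∑ i ∈ Finset.range k, f (y i)) - b)) atTop (𝓝 0) :=
      cum_tendsto q hb n0
    have hz : cum q n0 (b - f x) = 0 := by
      rw [cum_apply]
      exact Finset.sum_eq_zero fun i _ => hgr i
    have hlim2 : Tendsto (fun k => cum q n0 ((∑ i ∈ Finset.range k, f (y i)) - b) + 2) atTop
        (𝓝 (0 + 2)) := hlimc.add_const 2
    rw [zero_add] at hlim2
    refine ge_of_tendsto' hlim2 fun k => ?_
    have e1 : f x = (∑ i ∈ Finset.range k, f (y i)) - ((∑ i ∈ Finset.range k, f (y i)) - b) -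
      (b - f x) := by abel
    have h1 := map_sub_le_add (cum q n0) ((∑ i ∈ Finset.range k, f (y i)) -
      ((∑ i ∈ Finset.range k, f (y i)) - b)) (b - f x)
    rw [← e1, hz, add_zero] at h1
    have h2 := map_sub_le_add (cum q n0) (∑ i ∈ Finset.range k, f (y i))
      ((∑ i ∈ Finset.range k, f (y i)) - b)
    linarith [hcum k]
  -- conclude
  rw [continuous_iff_continuousAt]
  intro x
  unfold ContinuousAt
  rw [hq.tendsto_nhds]
  intro i ε hε
  obtain ⟨m, δ, hδ, hm⟩ := main i
  have hU : {y | cum p m (y - x) < δ * (ε / 4)} ∈ 𝓝 x := by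
    have hc : Continuous fun y => cum p m (y - x) :=
      (cum_continuous hp m).comp (continuous_id.sub continuous_const)
    refine (isOpen_lt hc continuous_const).mem_nhds ?_
    have : (0 : ℝ) < δ * (ε / 4) := by positivity
    simpa using this
  filter_upwards [hU] with y hy
  have hy' : cum p m (y - x) < δ * (ε / 4) := hy
  have h1 := hm (((4 / ε : ℝ) : ℂ) • (y - x)) (by
    rw [map_smul_eq_mul, Complex.norm_real, Real.norm_of_nonneg (by positivity)]
    calc 4 / ε * cum p m (y - x) < 4 / ε * (δ * (ε / 4)) := by gcongr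
      _ = δ := by field_simp)
  rw [map_smul, map_smul_eq_mul, Complex.norm_real, Real.norm_of_nonneg (by positivity),
    map_sub] at h1
  have h2 : cum q i (f y - f x) ≤ ε / 2 := by
    have h3 : 4 / ε * cum q i (f y - f x) ≤ 4 / ε * (ε / 2) := by
      refine h1.trans (le_of_eq ?_)
      field_simp
      norm_num
    exact le_of_mul_le_mul_left h3 (by positivity)
  have h4 := le_cum q (le_refl i) (f y - f x)
  linarith

end Pool.Helper791.Fre
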