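import Pool.Agent.Helper791Fre.Main

open Complex Metric Set Filter Topology MeasureTheory

set_option linter.unusedSectionVars false
set_option linter.unusedVariables false

namespace Pool.Helper791.Fre

section Banach

variable {D : Type*} [NormedRing D] [NormedAlgebra ℂ D] [CompleteSpace D]

/-- powers of a quasinilpotent element are small -/
theorem quasi_small {N : D} (hN : ∀ μ : ℂ, μ ≠ 0 → IsUnit (algebraMap ℂ D μ - N)) (K : ℝ)
    (hK : 0 < K) : ∃ j : ℕ, 0 < j ∧ K ^ j * ‖N ^ j‖ < 1 := by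
  have hr : spectralRadius ℂ N = 0 := by
    unfold spectralRadius
    refine le_antisymm ?_ zero_le
    refine iSup₂_le fun k hk => ?_
    have : k = 0 := by
      by_contra h
      exact hk (hN k h)
    simp [this]
  have ht := spectrum.pow_nnnorm_pow_one_div_tendsto_nhds_spectralRadius N
  rw [hr] at ht
  have hpos : (0 : ENNReal) < ENNReal.ofReal ((2 * K)⁻¹) := by
    rw [ENNReal.ofReal_pos]; positivity
  obtain ⟨j, hj, hj0⟩ := ((ht.eventually (gt_mem_nhds hpos)).and (eventually_gt_atTop 0)).exists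
  refine ⟨j, hj0, ?_⟩
  have hj1 : (‖N ^ j‖₊ : ENNReal) < ENNReal.ofReal ((2 * K)⁻¹) ^ j := by
    have h1 := ENNReal.rpow_lt_rpow hj (z := (j : ℝ)) (by exact_mod_cast hj0)
    rw [← ENNReal.rpow_mul, one_div, inv_mul_cancel₀ (by exact_mod_cast hj0.ne'),
      ENNReal.rpow_one, ENNReal.rpow_natCast] at h1
    exact h1
  rw [← ENNReal.ofReal_pow (by positivity)] at hj1
  have h2 : ‖N ^ j‖ < (2 * K)⁻¹ ^ j := by
    have h3 := (ENNReal.lt_ofReal_iff_toReal_lt (by simp)).1 hj1
    simpa using h3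
  calc K ^ j * ‖N ^ j‖ ≤ K ^ j * (2 * K)⁻¹ ^ j := by gcongr
    _ = (K * (2 * K)⁻¹) ^ j := by rw [mul_pow]
    _ = (1 / 2) ^ j := by congr 1; field_simp
    _ < 1 := pow_lt_one₀ (by norm_num) (by norm_num) hj0.ne'

theorem unit_add {N v : D} (hN : ∀ μ : ℂ, μ ≠ 0 → IsUnit (algebraMap ℂ D μ - N))
    (hc : Commute v N) : IsUnit (1 + v * N) := by
  obtain ⟨j, hj0, hj⟩ := quasi_small hN (‖v‖ + 1) (by positivity)
  set y : D := -(v * N) with hy
  have hyj : ‖y ^ j‖ < 1 := by
    have e1 : ‖y ^ j‖ = ‖v ^ j * N ^ j‖ := by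
      rw [hy, neg_pow, ← hc.mul_pow]
      rcases Nat.even_or_odd j with h | h
      · rw [h.neg_one_pow, one_mul]
      · rw [h.neg_one_pow, neg_one_mul, norm_neg]
    rw [e1]
    refine (norm_mul_le _ _).trans_lt ?_
    refine lt_of_le_of_lt ?_ hj
    refine mul_le_mul_of_nonneg_right ?_ (norm_nonneg _)
    refine (norm_pow_le' v hj0).trans ?_
    gcongr
    linarith
  have hu : IsUnit (1 - y ^ j) := isUnit_one_sub_of_norm_lt_one hyj
  rw [← mul_neg_geom_sum y j] at hu
  have hcomm : Commute (1 - y) (∑ i ∈ Finset.range j, y ^ i) := by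
    refine Commute.sum_right _ _ _ fun i _ => ?_
    exact ((Commute.refl y).pow_right i).neg_left.add_left (Commute.one_left _) |> fun h => by
      have := h
      rw [neg_add_eq_sub] at this
      exact this
  have h1 := (hcomm.isUnit_mul_iff.1 hu).1
  rw [hy, sub_neg_eq_add] at h1
  exact h1

theorem lemmaQ (h1 : ‖(1 : D)‖ = 1) {f x N : D} {c : ℂ} (hff : f * f = f) (hf : f ≠ 0)
    (hxf : x * f = x) (hfx : f * x = x) (hN : N = x - c • f)
    (hu : ∀ μ : ℂ, μ ≠ 0 → IsUnit (algebraMap ℂ D μ - N)) : ‖c‖ ≤ ‖x‖ := by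
  by_contra hlt
  push Not at hlt
  have hc0 : c ≠ 0 := by
    rintro rfl
    rw [norm_zero] at hlt
    exact absurd hlt (not_lt.2 (norm_nonneg _))
  have hun : IsUnit (algebraMap ℂ D c - x) := by
    rw [← spectrum.mem_resolventSet_iff]
    apply spectrum.mem_resolventSet_of_norm_lt_mul
    rwa [h1, mul_one]
  obtain ⟨u, hu'⟩ := hun
  have hxN : Commute x N := by
    rw [hN]
    refine (Commute.refl x).sub_right ?_
    refine Commute.smul_right ?_ c
    show x * f = f * x
    rw [hxf, hfx]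
  have huN : Commute (u : D) N := by
    rw [hu']
    show (algebraMap ℂ D c - x) * N = N * (algebraMap ℂ D c - x)
    rw [sub_mul, mul_sub, Algebra.commutes, hxN.eq]
  have hvN : Commute ((u⁻¹ : Dˣ) : D) N := huN.units_inv_left
  have h2 : IsUnit (1 + ((u⁻¹ : Dˣ) : D) * N) := unit_add hu hvN
  have h3 : algebraMap ℂ D c * (1 - f) = (u : D) * (1 + ((u⁻¹ : Dˣ) : D) * N) := by
    rw [mul_add, mul_one, ← mul_assoc, Units.mul_inv, one_mul, hu', hN, mul_sub, mul_one,
      ← Algebra.smul_def]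
    abel
  have h4 : IsUnit (algebraMap ℂ D c * (1 - f)) := by
    rw [h3]; exact u.isUnit.mul h2
  have h5 : algebraMap ℂ D c * (1 - f) * f = 0 := by
    rw [mul_assoc, sub_mul, one_mul, hff, sub_self, mul_zero]
  obtain ⟨w, hw⟩ := h4
  apply hf
  calc f = ((w⁻¹ : Dˣ) : D) * ((w : D) * f) := by rw [← mul_assoc, Units.inv_mul, one_mul]
    _ = 0 := by rw [hw, h5, mul_zero]

end Banach

variable {R : Type*} [Ring R] [Algebra ℂ R]
variable {p q : ℕ → Seminorm ℂ R}

/-- (D) one point spectrum below a minimal idempotent -/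
theorem one_point (hp : Fam p) (hq : Fam q) {f : R} (hf : Idm hp hq f)
    (hmin : ∀ g, Idm hp hq g → Le' g f → g = 0 ∨ g = f) {x : R} (hfx : f * x = x)
    (hxf : x * f = x) : ∃ c : ℂ, ∀ μ : ℂ, μ ≠ 0 → IsUnit (algebraMap ℂ R μ - (x - c • f)) := by
  by_cases h : ∀ μ : ℂ, μ ≠ 0 → IsUnit (algebraMap ℂ R μ - x)
  · exact ⟨0, fun μ hμ => by simpa using h μ hμ⟩
  push Not at h
  obtain ⟨lam, hlam, hns⟩ := h
  have hxS : x ∈ Sep hp hq := by
    rw [← hfx]; exact sep_mul_right hp hq x hf.1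
  obtain ⟨e, heS, hne, hee, ⟨h, he1, he2⟩, hoff⟩ := riesz hp hq hxS hlam hns
  have hle : Le' e f := by
    constructor
    · rw [he1, ← mul_assoc, hfx]
    · rw [he2, mul_assoc, hxf]
  have hef : e = f := (hmin e ⟨heS, hee⟩ hle).resolve_left hne
  subst hef
  refine ⟨lam, fun μ hμ => ?_⟩
  obtain ⟨y, hy1, hy2⟩ := hoff (μ + lam) (by simpa using hμ)
  set m : R := algebraMap ℂ R (μ + lam) - x with hm
  have hey : e * y = y * e := by
    calc e * y = (y * m) * y := by rw [hy1]
      _ = y * e := by rw [mul_assoc, hy2]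
  have hem : e * m = m * e := by
    calc e * m = (m * y) * m := by rw [hy2]
      _ = m * e := by rw [mul_assoc, hy1]
  set Z : R := algebraMap ℂ R μ - (x - lam • e) with hZ
  have hZe : Z * e = m * e := by
    rw [hZ, hm, sub_mul, sub_mul, sub_mul, smul_mul_assoc, hee, map_add, add_mul,
      ← Algebra.smul_def lam e]
    abel
  have heZ : e * Z = e * m := by
    rw [hZ, hm, mul_sub, mul_sub, mul_sub, mul_smul_comm, hee, map_add, mul_add,
      ← Algebra.commutes lam e, ← Algebra.smul_def lam e]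
    abel
  have hZ1 : Z * (1 - e) = algebraMap ℂ R μ * (1 - e) := by
    rw [hZ, sub_mul, sub_mul, smul_mul_assoc]
    have a1 : x * (1 - e) = 0 := by rw [mul_sub, mul_one, hxf, sub_self]
    have a2 : e * (1 - e) = 0 := by rw [mul_sub, mul_one, hee, sub_self]
    rw [a1, a2, smul_zero, sub_zero, sub_zero]
  have h1Z : (1 - e) * Z = (1 - e) * algebraMap ℂ R μ := by
    rw [hZ, mul_sub, mul_sub, mul_smul_comm]
    have a1 : (1 - e) * x = 0 := by rw [sub_mul, one_mul, hfx, sub_self]
    have a2 : (1 - e) * e = 0 := by rw [sub_mul, one_mul, hee, sub_self]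
    rw [a1, a2, smul_zero, sub_zero, sub_zero]
  have hμμ : algebraMap ℂ R μ * algebraMap ℂ R μ⁻¹ = 1 := by
    rw [← map_mul, mul_inv_cancel₀ hμ, map_one]
  have hμμ' : algebraMap ℂ R μ⁻¹ * algebraMap ℂ R μ = 1 := by
    rw [← map_mul, inv_mul_cancel₀ hμ, map_one]
  refine ⟨⟨Z, e * y + (1 - e) * algebraMap ℂ R μ⁻¹, ?_, ?_⟩, rfl⟩
  · rw [mul_add, ← mul_assoc, ← mul_assoc, hZe, hZ1]
    have a1 : m * e * y = e := by rw [mul_assoc, hey, ← mul_assoc, hy2, hee]
    have a2 : algebraMap ℂ R μ * (1 - e) * algebraMap ℂ R μ⁻¹ = 1 - e := by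
      rw [Algebra.commutes μ (1 - e), mul_assoc, hμμ, mul_one]
    rw [a1, a2]; abel
  · rw [add_mul, hey, mul_assoc, heZ, mul_assoc, Algebra.commutes μ⁻¹ Z, ← mul_assoc (1 - e),
      h1Z, mul_assoc (1 - e), hμμ, mul_one]
    have a1 : y * (e * m) = e := by rw [hem, ← mul_assoc, hy1, hee]
    rw [a1]; abel

/-- there is no nonzero idempotent in the separating space -/
theorem no_idem (hp : Fam p) (hq : Fam q) {e : R} (he : Idm hp hq e) : e = 0 := by
  by_contra hne
  obtain ⟨f, hf, hf0, hmin⟩ := exists_min hp hq he hne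
  obtain ⟨n, hn⟩ : ∃ n, p n f ≠ 0 := by
    by_contra h
    push Not at h
    exact hf0 (hp.sep _ h)
  obtain ⟨m, hm⟩ : ∃ m, q m f ≠ 0 := by
    by_contra h
    push Not at h
    exact hf0 (hq.sep _ h)
  set K : ℝ := q m f * q m f + p n f * p n f + 1 with hK
  have hK0 : 0 < K := by positivity
  obtain ⟨u, hu1, hu2⟩ := hf.1 (max n m) (1 / (2 * K)) (by positivity)
  set x : R := f * u * f with hx
  have hfx : f * x = x := by rw [hx, ← mul_assoc, ← mul_assoc, hf.2]
  have hxf : x * f = x := by rw [hx, mul_assoc, hf.2]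
  obtain ⟨c, hc⟩ := one_point hp hq hf hmin hfx hxf
  -- the q side
  have hQ : ‖c‖ ≤ q m x := by
    have h := lemmaQ (hq.norm_one m) (f := hq.π m f) (x := hq.π m x) (N := hq.π m (x - c • f))
      (c := c) (by rw [← map_mul, hf.2])
      (by
        intro h0
        apply hm
        rw [← norm_pi (q m) (hq.mul m) f]
        rw [h0, norm_zero])
      (by rw [← map_mul, hxf]) (by rw [← map_mul, hfx]) (by rw [map_sub, map_smul])
      (fun μ hμ => by
        have h1 := (hc μ hμ).map (hq.π m)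
        rwa [map_sub, hq.π_alg] at h1)
    rwa [norm_pi] at h
  -- the p side
  have hP : ‖1 - c‖ ≤ p n (f - x) := by
    have h := lemmaQ (hp.norm_one n) (f := hp.π n f) (x := hp.π n (f - x))
      (N := hp.π n (-(x - c • f)))
      (c := 1 - c) (by rw [← map_mul, hf.2])
      (by
        intro h0
        apply hn
        rw [← norm_pi (p n) (hp.mul n) f]
        rw [h0, norm_zero])
      (by rw [← map_mul, sub_mul, hxf, hf.2]) (by rw [← map_mul, mul_sub, hfx, hf.2])
      (by
        rw [← map_smul, ← map_sub]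
        congr 1
        rw [sub_smul, one_smul]; abel)
      (fun μ hμ => by
        have h1 := ((hc (-μ) (neg_ne_zero.2 hμ)).neg).map (hp.π n)
        have e1 : -(algebraMap ℂ R (-μ) - (x - c • f)) =
          algebraMap ℂ R μ - (-(x - c • f)) := by
          rw [map_neg]; abel
        rw [e1, map_sub, hp.π_alg] at h1
        exact h1)
    rwa [norm_pi] at h
  have b1 : q m x ≤ q m f * q m f * (1 / (2 * K)) := by
    rw [hx]
    have h1 := (hq.mul m (f * u) f).trans (mul_le_mul_of_nonneg_right (hq.mul m f u)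
      (apply_nonneg _ _))
    have h2 : q m u ≤ 1 / (2 * K) := (hq.mono m _ (le_max_right n m) u).trans hu1.le
    calc q m (f * u * f) ≤ q m f * q m u * q m f := h1
      _ = q m f * q m f * q m u := by ring
      _ ≤ _ := by gcongr
  have b2 : p n (f - x) ≤ p n f * p n f * (1 / (2 * K)) := by
    have e1 : f - x = f * (f - u) * f := by
      rw [hx, mul_sub, sub_mul, hf.2, hf.2]
    rw [e1]
    have h1 := (hp.mul n (f * (f - u)) f).trans (mul_le_mul_of_nonneg_right
      (hp.mul n f (f - u)) (apply_nonneg _ _))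
    have h2 : p n (f - u) ≤ 1 / (2 * K) := (hp.mono n _ (le_max_left n m) _).trans hu2.le
    calc p n (f * (f - u) * f) ≤ p n f * p n (f - u) * p n f := h1
      _ = p n f * p n f * p n (f - u) := by ring
      _ ≤ _ := by gcongr
  have b3 : (1 : ℝ) ≤ ‖c‖ + ‖1 - c‖ := by
    calc (1 : ℝ) = ‖(1 : ℂ)‖ := by simp
      _ = ‖c + (1 - c)‖ := by congr 1; ring
      _ ≤ _ := norm_add_le _ _
  have b4 : q m f * q m f * (1 / (2 * K)) + p n f * p n f * (1 / (2 * K)) < 1 := by
    rw [← add_mul, mul_one_div, div_lt_one (by positivity)]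
    rw [hK]
    nlinarith [mul_nonneg (apply_nonneg (q m) f) (apply_nonneg (q m) f),
      mul_nonneg (apply_nonneg (p n) f) (apply_nonneg (p n) f)]
  linarith

/-- MAIN: the separating space consists of quasi-regular elements. -/
theorem quasi_regular (hp : Fam p) (hq : Fam q) {s : R} (hs : s ∈ Sep hp hq) :
    IsUnit (1 - s) := by
  by_contra h
  have h1 : ¬ IsUnit (algebraMap ℂ R 1 - s) := by rwa [map_one]
  obtain ⟨e, heS, hne, hee, -, -⟩ := riesz hp hq hs one_ne_zero h1
  exact hne (no_idem hp hq ⟨heS, hee⟩)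

end Pool.Helper791.Fre
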