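import Pool.Agent.Helper791Fre.Model

open Complex Metric Set Filter Topology MeasureTheory

set_option linter.unusedSectionVars false
set_option linter.unusedVariables false

namespace Pool.Helper791.Fre

variable {R : Type*} [Ring R] [Algebra ℂ R]

/-- complete separated increasing family of submultiplicative seminorms -/
structure Fam (p : ℕ → Seminorm ℂ R) : Prop where
  mono : ∀ n m, n ≤ m → ∀ x, p n x ≤ p m x
  mul : ∀ n x y, p n (x * y) ≤ p n x * p n y
  one : ∀ n, p n 1 = 1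
  sep : ∀ x, (∀ n, p n x = 0) → x = 0
  complete : ∀ u : ℕ → R, (∀ n, ∀ ε > 0, ∃ N, ∀ k ≥ N, ∀ l ≥ N, p n (u k - u l) < ε) →
     ∃ x, ∀ n, Tendsto (fun k => p n (u k - x)) atTop (𝓝 0)

variable {p : ℕ → Seminorm ℂ R} (hF : Fam p)

/-- the `n`-th Banach algebra -/
abbrev Fam.B (n : ℕ) : Type _ := Bn (p n) (hF.mul n)

/-- the `n`-th canonical map -/
noncomputable abbrev Fam.π (n : ℕ) : R →ₐ[ℂ] hF.B n := pi' (p n) (hF.mul n)

/-- connecting maps -/
noncomputable abbrev Fam.φ {n m : ℕ} (h : n ≤ m) : hF.B m →L[ℂ] hF.B n :=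
  conn (hm := hF.mul n) (hq := hF.mul m) (hF.mono n m h)

theorem Fam.glue (d : ∀ n, hF.B n) (hd : ∀ n m (h : n ≤ m), hF.φ h (d m) = d n) :
    ∃ r : R, ∀ n, hF.π n r = d n := by
  have h1 : ∀ k : ℕ, ∃ a : R, ‖hF.π k a - d k‖ < 1 / ((k : ℝ) + 1) := fun k =>
    dense_pi _ _ (d k) (by positivity)
  choose a ha using h1
  have h2 : ∀ n k, n ≤ k → ‖hF.π n (a k) - d n‖ < 1 / ((k : ℝ) + 1) := by
    intro n k hnk
    have e1 : hF.π n (a k) - d n = hF.φ hnk (hF.π k (a k) - d k) := by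
      rw [map_sub, hd n k hnk]
      congr 1
      exact (conn_pi (hm := hF.mul n) (hq := hF.mul k) (hF.mono n k hnk) (a k)).symm
    rw [e1]
    exact (conn_norm _ _).trans_lt (ha k)
  have hlim : Tendsto (fun k : ℕ => 1 / ((k : ℝ) + 1)) atTop (𝓝 0) :=
    tendsto_one_div_add_atTop_nhds_zero_nat
  obtain ⟨x, hx⟩ := hF.complete a (by
    intro n ε hε
    obtain ⟨N, hN⟩ := (hlim.eventually (gt_mem_nhds (half_pos hε))).exists_forall_of_atTop
    refine ⟨max N n, fun k hk l hl => ?_⟩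
    have hk1 := h2 n k ((le_max_right _ _).trans hk)
    have hl1 := h2 n l ((le_max_right _ _).trans hl)
    have hk2 := hN k ((le_max_left _ _).trans hk)
    have hl2 := hN l ((le_max_left _ _).trans hl)
    have e1 : p n (a k - a l) = ‖(hF.π n (a k) - d n) - (hF.π n (a l) - d n)‖ := by
      rw [sub_sub_sub_cancel_right, ← map_sub, norm_pi]
    rw [e1]
    refine (norm_sub_le _ _).trans_lt ?_
    linarith)
  refine ⟨x, fun n => ?_⟩
  have h3 : Tendsto (fun k : ℕ => p n (a k - x) + 1 / ((k : ℝ) + 1)) atTop (𝓝 (0 + 0)) :=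
    (hx n).add hlim
  rw [add_zero] at h3
  have h4 : ‖hF.π n x - d n‖ ≤ 0 := by
    refine ge_of_tendsto h3 ?_
    filter_upwards [eventually_ge_atTop n] with k hk
    have e1 : hF.π n x - d n = (hF.π n (a k) - d n) - hF.π n (a k - x) := by
      rw [map_sub]; abel
    rw [e1]
    refine (norm_sub_le _ _).trans ?_
    have := h2 n k hk
    have e2 : ‖hF.π n (a k - x)‖ = p n (a k - x) := norm_pi _ _ _
    linarith
  exact sub_eq_zero.1 (norm_le_zero_iff.1 h4)

theorem Fam.inj {x y : R} (h : ∀ n, hF.π n x = hF.π n y) : x = y := by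
  rw [← sub_eq_zero]
  refine hF.sep _ fun n => ?_
  rw [← norm_pi (p n) (hF.mul n), map_sub, sub_eq_zero.2 (h n), norm_zero]

theorem Fam.isUnit {x : R} (h : ∀ n, IsUnit (hF.π n x)) : IsUnit x := by
  obtain ⟨r, hr⟩ := hF.glue (fun n => ((h n).unit⁻¹ : (hF.B n)ˣ)) (by
    intro n m hnm
    have hx : hF.φ hnm (hF.π m x) = hF.π n x :=
      conn_pi (hm := hF.mul n) (hq := hF.mul m) (hF.mono n m hnm) x
    have e1 : hF.φ hnm (((h m).unit⁻¹ : (hF.B m)ˣ) : hF.B m) * hF.π n x = 1 := by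
      rw [← hx, ← conn_mul, IsUnit.val_inv_mul, conn_one]
    have e2 : hF.π n x * (((h n).unit⁻¹ : (hF.B n)ˣ) : hF.B n) = 1 := IsUnit.mul_val_inv (h n)
    calc hF.φ hnm (((h m).unit⁻¹ : (hF.B m)ˣ) : hF.B m)
        = hF.φ hnm (((h m).unit⁻¹ : (hF.B m)ˣ) : hF.B m) *
            (hF.π n x * (((h n).unit⁻¹ : (hF.B n)ˣ) : hF.B n)) := by rw [e2, mul_one]
      _ = _ := by rw [← mul_assoc, e1, one_mul])
  refine ⟨⟨x, r, ?_, ?_⟩, rfl⟩
  · refine hF.inj fun n => ?_
    rw [map_mul, hr, map_one]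
    exact IsUnit.mul_val_inv (h n)
  · refine hF.inj fun n => ?_
    rw [map_mul, hr, map_one]
    exact IsUnit.val_inv_mul (h n)

end Pool.Helper791.Fre
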