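import Pool.Agent.Helper791Fre.Sep

open Complex Metric Set Filter Topology MeasureTheory

set_option linter.unusedSectionVars false
set_option linter.unusedVariables false

namespace Pool.Helper791.Fre

variable {R : Type*} [Ring R] [Algebra ℂ R]
variable {p q : ℕ → Seminorm ℂ R}

/-- `L m k = b k ∘ b (k+1) ∘ ... ∘ b (k+m-1)` -/
def L (b : ℕ → (R →ₗ[ℂ] R)) : ℕ → ℕ → (R →ₗ[ℂ] R)
  | 0, _ => LinearMap.id
  | (m + 1), k => (b k).comp (L b m (k + 1))

theorem L_bound (b : ℕ → (R →ₗ[ℂ] R)) (hb : ∀ k j, ∃ C : ℝ, ∀ y, q j (b k y) ≤ C * q j y)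
    (j : ℕ) : ∀ m k, ∃ C : ℝ, 0 < C ∧ ∀ y, q j (L b m k y) ≤ C * q j y := by
  intro m
  induction m with
  | zero => exact fun k => ⟨1, one_pos, fun y => by simp [L]⟩
  | succ m ih =>
    intro k
    obtain ⟨C1, h1⟩ := hb k j
    obtain ⟨C2, h2, h3⟩ := ih (k + 1)
    refine ⟨(|C1| + 1) * C2, by positivity, fun y => ?_⟩
    simp only [L, LinearMap.comp_apply]
    refine (h1 _).trans ?_
    have h4 : C1 ≤ |C1| + 1 := by linarith [le_abs_self C1]
    calc C1 * q j (L b m (k + 1) y) ≤ (|C1| + 1) * q j (L b m (k + 1) y) :=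
          mul_le_mul_of_nonneg_right h4 (apply_nonneg _ _)
      _ ≤ (|C1| + 1) * (C2 * q j y) := mul_le_mul_of_nonneg_left (h3 y) (by positivity)
      _ = _ := by ring

theorem L_const (b : ℕ → (R →ₗ[ℂ] R)) (hb : ∀ k j, ∃ C : ℝ, ∀ y, q j (b k y) ≤ C * q j y)
    (i : ℕ) : ∃ C : ℝ, 0 < C ∧ ∀ m k, k + m = i → ∀ y, q i (L b m k y) ≤ C * q i y := by
  have h := L_bound (q := q) b hb i
  choose C hC0 hC using h
  refine ⟨(∑ k ∈ Finset.range (i + 1), C (i - k) k) , ?_, ?_⟩
  · exact Finset.sum_pos (fun k _ => hC0 _ _) ⟨0, by simp⟩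
  · intro m k hkm y
    refine (hC m k y).trans ?_
    refine mul_le_mul_of_nonneg_right ?_ (apply_nonneg _ _)
    have hm : m = i - k := by omega
    subst hm
    exact Finset.single_le_sum (f := fun k => C (i - k) k) (fun l _ => (hC0 _ _).le)
      (Finset.mem_range.2 (by omega))

/-- Mittag-Leffler type lemma -/
theorem mittag (hp : Fam p) (hq : Fam q) (b : ℕ → (R →ₗ[ℂ] R))
    (hb : ∀ k j, ∃ C : ℝ, ∀ y, q j (b k y) ≤ C * q j y)
    (hbS : ∀ k, ∀ t ∈ Sep hp hq, b k t ∈ Sep hp hq) :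
    ∃ C : ℕ → ℝ, (∀ i, 0 < C i) ∧ ∀ x : ℕ → R, (∀ i, x i ∈ Sep hp hq) →
      (∀ i, C i * q i (x i) ≤ (1 / 2) ^ i) →
      ∃ z : ℕ → R, ∀ k, z k ∈ Sep hp hq ∧ z k = x k + b k (z (k + 1)) := by
  have h := L_const (q := q) b hb
  choose C hC0 hC using h
  refine ⟨C, hC0, fun x hxS hx => ?_⟩
  have hLS : ∀ m k, ∀ t ∈ Sep hp hq, L b m k t ∈ Sep hp hq := by
    intro m
    induction m with
    | zero => exact fun k t ht => ht
    | succ m ih => exact fun k t ht => hbS k _ (ih (k + 1) t ht)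
  have h1 : ∀ k, ∃ z, ∀ j, Tendsto (fun K => q j ((∑ m ∈ Finset.range K, L b m k (x (k + m))) - z))
      atTop (𝓝 0) := by
    intro k
    refine series hq (fun m => L b m k (x (k + m))) fun j m hjm => ?_
    refine (hq.mono j (k + m) (by omega) _).trans ?_
    refine (hC (k + m) m k rfl _).trans ?_
    refine (hx (k + m)).trans ?_
    exact pow_le_pow_of_le_one (by norm_num) (by norm_num) (by omega)
  choose z hz using h1
  refine ⟨z, fun k => ⟨?_, ?_⟩⟩
  · refine sep_closed_q hp hq fun n ε hε => ?_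
    obtain ⟨K, hK⟩ := ((hz k n).eventually (gt_mem_nhds hε)).exists
    refine ⟨∑ m ∈ Finset.range K, L b m k (x (k + m)), ?_, ?_⟩
    · exact Submodule.sum_mem _ fun m _ => hLS m k _ (hxS _)
    · rwa [map_sub_rev]
  · rw [← sub_eq_zero]
    refine hq.sep _ fun j => ?_
    obtain ⟨Cj, hCj⟩ := hb k j
    have hrec : ∀ K, (∑ m ∈ Finset.range (K + 1), L b m k (x (k + m))) =
        x k + b k (∑ m ∈ Finset.range K, L b m (k + 1) (x (k + 1 + m))) := by
      intro K
      rw [Finset.sum_range_succ', add_comm, map_sum]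
      congr 1
      refine Finset.sum_congr rfl fun m _ => ?_
      have : k + (m + 1) = k + 1 + m := by omega
      rw [this]
      rfl
    have hlim : Tendsto (fun K => q j ((∑ m ∈ Finset.range (K + 1), L b m k (x (k + m))) - z k) +
        (|Cj| + 1) * q j ((∑ m ∈ Finset.range K, L b m (k + 1) (x (k + 1 + m))) - z (k + 1)))
        atTop (𝓝 (0 + (|Cj| + 1) * 0)) :=
      ((hz k j).comp (tendsto_add_atTop_nat 1)).add ((hz (k + 1) j).const_mul _)
    rw [mul_zero, add_zero] at hlim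
    refine le_antisymm (ge_of_tendsto' hlim fun K => ?_) (apply_nonneg _ _)
    have e1 : z k - (x k + b k (z (k + 1))) =
      - ((∑ m ∈ Finset.range (K + 1), L b m k (x (k + m))) - z k) +
        b k ((∑ m ∈ Finset.range K, L b m (k + 1) (x (k + 1 + m))) - z (k + 1)) := by
      rw [hrec K, map_sub]; abel
    rw [e1]
    refine (map_add_le_add _ _ _).trans ?_
    rw [map_neg_eq_map]
    refine add_le_add le_rfl ((hCj _).trans ?_)
    exact mul_le_mul_of_nonneg_right (by linarith [le_abs_self Cj]) (apply_nonneg _ _)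

/-- The gliding hump. -/
theorem hump (hp : Fam p) (hq : Fam q) (n : ℕ) (τ ρ : R →ₗ[ℂ] R) (s : R)
    (hs : s ∈ Sep hp hq)
    (hτq : ∀ j, ∃ C : ℝ, ∀ x, q j (τ x) ≤ C * q j x)
    (hρq : ∀ j, ∃ C : ℝ, ∀ x, q j (ρ x) ≤ C * q j x)
    (hρp : ∃ C : ℝ, ∀ x, p n (ρ x) ≤ C * p n x)
    (hτS : ∀ t ∈ Sep hp hq, τ t ∈ Sep hp hq) (hρS : ∀ a, ρ a ∈ Sep hp hq) (hρs : ρ s = τ s)
    (lam : ℕ → ℂ) (hinj : Function.Injective lam) (h0 : ∀ k, lam k ≠ 0)
    (hlow : ∀ k, ∃ δ : ℝ, 0 < δ ∧ ∀ t ∈ Sep hp hq, δ ≤ p n (s - (lam k • t - τ t))) : False := by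
  set b : ℕ → (R →ₗ[ℂ] R) := fun k => lam k • LinearMap.id - τ with hbdef
  have hbapp : ∀ k x, b k x = lam k • x - τ x := fun k x => rfl
  have hb : ∀ k j, ∃ C : ℝ, ∀ y, q j (b k y) ≤ C * q j y := by
    intro k j
    obtain ⟨C, hC⟩ := hτq j
    refine ⟨‖lam k‖ + C, fun y => ?_⟩
    rw [hbapp, add_mul]
    refine (map_sub_le_add _ _ _).trans ?_
    rw [map_smul_eq_mul]
    exact add_le_add le_rfl (hC y)
  have hbS : ∀ k, ∀ t ∈ Sep hp hq, b k t ∈ Sep hp hq := fun k t ht =>
    Submodule.sub_mem _ ((Sep hp hq).smul_mem _ ht) (hτS t ht)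
  have hbcomm : ∀ k l x, b k (b l x) = b l (b k x) := by
    intro k l x
    simp only [hbapp, map_sub, map_smul, smul_sub, smul_smul]
    rw [mul_comm (lam k) (lam l)]
    abel
  obtain ⟨C, hC0, hML⟩ := mittag hp hq b hb hbS
  -- the products
  let Bk : ℕ → (R →ₗ[ℂ] R) := fun k => Nat.rec LinearMap.id (fun m f => (b m).comp f) k
  have hB0 : ∀ x, Bk 0 x = x := fun x => rfl
  have hBs : ∀ k x, Bk (k + 1) x = b k (Bk k x) := fun k x => rfl
  have hBcomm : ∀ k l x, Bk k (b l x) = b l (Bk k x) := by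
    intro k
    induction k with
    | zero => intro l x; rfl
    | succ k ih => intro l x; rw [hBs, hBs, ih, hbcomm]
  have hBS : ∀ k, ∀ t ∈ Sep hp hq, Bk k t ∈ Sep hp hq := by
    intro k
    induction k with
    | zero => exact fun t ht => ht
    | succ k ih => exact fun t ht => hbS k _ (ih t ht)
  -- the eigenvalue
  have hev : ∀ k m, ∀ t ∈ Sep hp hq, ∃ t' ∈ Sep hp hq,
      Bk m t = (∏ i ∈ Finset.range m, (lam i - lam k)) • t + b k t' := by
    intro k m
    induction m with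
    | zero => exact fun t ht => ⟨0, Submodule.zero_mem _, by simp [hB0]⟩
    | succ m ih =>
      intro t ht
      obtain ⟨t', ht', e1⟩ := ih t ht
      refine ⟨(∏ i ∈ Finset.range m, (lam i - lam k)) • t + b m t',
        Submodule.add_mem _ ((Sep hp hq).smul_mem _ ht) (hbS m _ ht'), ?_⟩
      rw [hBs, e1, map_add, map_smul, Finset.prod_range_succ, map_add, map_smul,
        hbcomm m k t', ← add_assoc]
      congr 1
      rw [hbapp, hbapp, mul_smul, ← smul_add]
      congr 1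
      rw [sub_smul]; abel
  obtain ⟨Cρ, hCρ⟩ := hρp
  choose Cq hCq using hρq
  choose δ hδ0 hδ using hlow
  have hprod : ∀ k, (∏ i ∈ Finset.range k, (lam i - lam k)) ≠ 0 := by
    intro k
    refine Finset.prod_ne_zero_iff.2 fun i hi => ?_
    rw [sub_ne_zero]
    exact fun h => (Finset.mem_range.1 hi).ne (hinj h)
  set P : ℕ → ℂ := fun k => ∏ i ∈ Finset.range k, (lam i - lam k) with hP
  -- the choice of coefficients
  set c : ℕ → R → ℝ := fun k y =>
    (k + p n y + ‖P k‖ * (|Cρ| + 1)) / (‖P k‖ * ‖lam k‖ * δ k) with hc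
  have hchoice : ∀ k y, ∃ a : R, C k * q k (ρ a) ≤ (1 / 2) ^ k ∧
      p n ((c k y : ℂ) • s - a) ≤ 1 := by
    intro k y
    have hm : ((c k y : ℂ) • s) ∈ Sep hp hq := (Sep hp hq).smul_mem _ hs
    set D : ℝ := C k * (|Cq k| + 1) with hD
    have hD0 : 0 < D := mul_pos (hC0 k) (by positivity)
    obtain ⟨a, ha1, ha2⟩ := hm (max n k) (min 1 ((1 / 2) ^ k / D)) (lt_min one_pos (by positivity))
    refine ⟨a, ?_, ?_⟩
    · have h2 : q k a ≤ (1 / 2) ^ k / D :=
        ((hq.mono k (max n k) (le_max_right _ _) a).trans ha1.le).trans (min_le_right _ _)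
      rw [le_div_iff₀ hD0] at h2
      calc C k * q k (ρ a) ≤ C k * ((|Cq k| + 1) * q k a) := by
            refine mul_le_mul_of_nonneg_left ((hCq k a).trans ?_) (hC0 k).le
            exact mul_le_mul_of_nonneg_right (by linarith [le_abs_self (Cq k)]) (apply_nonneg _ _)
        _ = q k a * D := by rw [hD]; ring
        _ ≤ _ := h2
    · have h2 := (hp.mono n (max n k) (le_max_left _ _) ((c k y : ℂ) • s - a)).trans ha2.le
      exact h2.trans (min_le_left _ _)
  choose F hF1 hF2 using hchoice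
  let y : ℕ → R := fun k => Nat.rec 0 (fun m w => w + Bk m (ρ (F m w))) k
  have hy0 : y 0 = 0 := rfl
  have hys : ∀ k, y (k + 1) = y k + Bk k (ρ (F k (y k))) := fun k => rfl
  obtain ⟨z, hz⟩ := hML (fun k => ρ (F k (y k))) (fun k => hρS _) (fun k => hF1 k (y k))
  have hz0 : ∀ k, z 0 = y k + Bk k (z k) := by
    intro k
    induction k with
    | zero => rw [hy0, hB0, zero_add]
    | succ k ih =>
      rw [ih, hys, hBs, ← hBcomm, add_assoc, ← map_add]
      congr 2
      exact (hz k).2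
  have key : ∀ k : ℕ, (k : ℝ) ≤ p n (z 0) := by
    intro k
    have hPk : 0 < ‖P k‖ := norm_pos_iff.2 (hprod k)
    have hlk : 0 < ‖lam k‖ := norm_pos_iff.2 (h0 k)
    set a := F k (y k) with ha
    set ck : ℝ := c k (y k) with hck
    have hck0 : 0 ≤ ck := by
      rw [hck, hc]
      refine div_nonneg ?_ (mul_nonneg (by positivity) (hδ0 k).le)
      have := apply_nonneg (p n) (y k)
      positivity
    obtain ⟨t1, ht1, e1⟩ := hev k k (ρ a) (hρS a)
    have e2 : ρ a = (ck : ℂ) • (lam k • s - b k s) - ρ ((ck : ℂ) • s - a) := by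
      rw [map_sub, map_smul, hρs, hbapp]
      simp
    have e3 : z 0 = y k + (P k * ck * lam k) • s +
        b k (t1 + Bk k (z (k + 1)) - (P k * ck) • s) - P k • ρ ((ck : ℂ) • s - a) := by
      rw [hz0 (k + 1), hys, hBs, ← ha, e1, map_sub, map_add, map_smul]
      conv_lhs => rw [e2]
      simp only [smul_sub, smul_smul, mul_assoc]
      abel
    have hcase : (0 : ℝ) ≤ ‖P k * ck * lam k‖ := norm_nonneg _
    -- lower bound for the main part
    have hmain : ∀ t ∈ Sep hp hq, ‖P k * ck * lam k‖ * δ k ≤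
        p n ((P k * ck * lam k) • s + b k t) := by
      intro t ht
      by_cases hγ : P k * ck * lam k = 0
      · rw [hγ]; simp
      · have h1 := hδ k (-((P k * ck * lam k)⁻¹ • t))
          (Submodule.neg_mem _ ((Sep hp hq).smul_mem _ ht))
        have e4 : (P k * ck * lam k) • s + b k t = (P k * ck * lam k) •
            (s - (lam k • (-((P k * ck * lam k)⁻¹ • t)) - τ (-((P k * ck * lam k)⁻¹ • t)))) := by
          rw [← hbapp, map_neg, map_smul, sub_neg_eq_add, smul_add, smul_smul,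
            mul_inv_cancel₀ hγ, one_smul]
        rw [e4, map_smul_eq_mul]
        exact mul_le_mul_of_nonneg_left h1 (norm_nonneg _)
    have hT : t1 + Bk k (z (k + 1)) - (P k * ck) • s ∈ Sep hp hq :=
      Submodule.sub_mem _ (Submodule.add_mem _ ht1 (hBS k _ (hz (k + 1)).1))
        ((Sep hp hq).smul_mem _ hs)
    have h2 := hmain _ hT
    have h3 : p n (P k • ρ ((ck : ℂ) • s - a)) ≤ ‖P k‖ * (|Cρ| + 1) := by
      rw [map_smul_eq_mul]
      refine mul_le_mul_of_nonneg_left ?_ (norm_nonneg _)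
      refine (hCρ _).trans ?_
      have h4 := hF2 k (y k)
      have h5 : Cρ * p n ((ck : ℂ) • s - a) ≤ (|Cρ| + 1) * p n ((ck : ℂ) • s - a) :=
        mul_le_mul_of_nonneg_right (by linarith [le_abs_self Cρ]) (apply_nonneg _ _)
      refine h5.trans ?_
      have h6 : p n ((ck : ℂ) • s - a) ≤ 1 := h4
      nlinarith [abs_nonneg Cρ]
    have h4 : ‖P k * ck * lam k‖ * δ k = k + p n (y k) + ‖P k‖ * (|Cρ| + 1) := by
      rw [norm_mul, norm_mul, Complex.norm_real, Real.norm_of_nonneg hck0, hck, hc]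
      have := hδ0 k
      field_simp
    have h5 : p n ((P k * ck * lam k) • s + b k (t1 + Bk k (z (k + 1)) - (P k * ck) • s)) ≤
        p n (z 0) + p n (y k) + p n (P k • ρ ((ck : ℂ) • s - a)) := by
      have e5 : (P k * ck * lam k) • s + b k (t1 + Bk k (z (k + 1)) - (P k * ck) • s) =
          (z 0 - y k) + P k • ρ ((ck : ℂ) • s - a) := by
        rw [e3]; abel
      rw [e5]
      refine (map_add_le_add _ _ _).trans ?_
      exact add_le_add (map_sub_le_add _ _ _) le_rfl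
    linarith
  obtain ⟨k, hk⟩ := exists_nat_gt (p n (z 0))
  linarith [key k]

end Pool.Helper791.Fre
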