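import Pool.Agent.Helper791Fre.Spec

open Complex Metric Set Filter Topology MeasureTheory

set_option linter.unusedSectionVars false
set_option linter.unusedVariables false

namespace Pool.Helper791.Fre

variable {R : Type*} [Ring R] [Algebra ℂ R]
variable {p q : ℕ → Seminorm ℂ R}

/-- idempotents of the separating space -/
def Idm (hp : Fam p) (hq : Fam q) (e : R) : Prop := e ∈ Sep hp hq ∧ e * e = e

/-- order on idempotents -/
def Le' (g f : R) : Prop := f * g = g ∧ g * f = g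

theorem Le'.trans {a b c : R} (h1 : Le' a b) (h2 : Le' b c) : Le' a c := by
  constructor
  · calc c * a = c * (b * a) := by rw [h1.1]
      _ = a := by rw [← mul_assoc, h2.1, h1.1]
  · calc a * c = (a * b) * c := by rw [h1.2]
      _ = a := by rw [mul_assoc, h2.2, h1.2]

theorem Le'.refl {hp : Fam p} {hq : Fam q} {e : R} (h : Idm hp hq e) : Le' e e := ⟨h.2, h.2⟩

theorem Idm.sub {hp : Fam p} {hq : Fam q} {e g : R} (he : Idm hp hq e) (hg : Idm hp hq g)
    (h : Le' g e) : Idm hp hq (e - g) ∧ Le' (e - g) e := by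
  refine ⟨⟨Submodule.sub_mem _ he.1 hg.1, ?_⟩, ?_, ?_⟩
  · rw [mul_sub, sub_mul, sub_mul, he.2, hg.2, h.1, h.2]; abel
  · rw [mul_sub, he.2, h.1]
  · rw [sub_mul, he.2, h.2]

/-- minimality at level `n` -/
def Mn (hp : Fam p) (hq : Fam q) (r : Seminorm ℂ R) (f : R) : Prop :=
  ∀ g, Idm hp hq g → Le' g f → r g = 0 ∨ r (f - g) = 0

theorem min_step (hp : Fam p) (hq : Fam q) (n : ℕ) (p' : Seminorm ℂ R) (f' : R)
    (hf' : Idm hp hq f') (hmin : Mn hp hq p' f') (hne : p n f' ≠ 0) :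
    ∃ f, Idm hp hq f ∧ Le' f f' ∧ p' (f' - f) = 0 ∧ p n f ≠ 0 ∧ Mn hp hq (p n) f := by
  by_contra hno
  push Not at hno
  -- one step
  have step : ∀ g : {g : R // Idm hp hq g ∧ Le' g f' ∧ p' (f' - g) = 0 ∧ p n g ≠ 0},
      ∃ g1 : {g : R // Idm hp hq g ∧ Le' g f' ∧ p' (f' - g) = 0 ∧ p n g ≠ 0},
        Le' g1.1 g.1 ∧ p n (g.1 - g1.1) ≠ 0 := by
    rintro ⟨g, hg, hgf, hpg, hng⟩
    have h1 := hno g hg hgf hpg hng
    unfold Mn at h1
    push Not at h1
    obtain ⟨g', hg', hle, hz1, hz2⟩ := h1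
    rcases hmin g' hg' (hle.trans hgf) with h | h
    · have hs := hg.sub hg' hle
      refine ⟨⟨g - g', hs.1, hs.2.trans hgf, ?_, hz2⟩, hs.2, ?_⟩
      · have e1 : f' - (g - g') = (f' - g) + g' := by abel
        rw [e1]
        refine le_antisymm ((map_add_le_add _ _ _).trans ?_) (apply_nonneg _ _)
        rw [hpg, h, add_zero]
      · simpa using hz1
    · exact ⟨⟨g', hg', hle.trans hgf, h, hz1⟩, hle, hz2⟩
  choose F hF1 hF2 using step
  let G : ℕ → {g : R // Idm hp hq g ∧ Le' g f' ∧ p' (f' - g) = 0 ∧ p n g ≠ 0} := fun k =>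
    Nat.rec ⟨f', hf', Le'.refl hf', by simp, hne⟩ (fun _ g => F g) k
  have hG1 : ∀ k, Le' (G (k + 1)).1 (G k).1 := fun k => hF1 (G k)
  have hG2 : ∀ k, p n ((G k).1 - (G (k + 1)).1) ≠ 0 := fun k => hF2 (G k)
  have hle : ∀ k m, Le' (G (k + m)).1 (G k).1 := by
    intro k m
    induction m with
    | zero => exact Le'.refl (G k).2.1
    | succ m ih => exact (hG1 (k + m)).trans ih
  have hle' : ∀ k l, k ≤ l → Le' (G l).1 (G k).1 := by
    intro k l hkl
    obtain ⟨m, rfl⟩ := Nat.exists_eq_add_of_le hkl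
    exact hle k m
  refine no_orth hp hq n (fun k => (G k).1 - (G (k + 1)).1) (fun k => ?_) (fun k => ?_)
    (fun k l hkl => ?_) hG2
  · exact (Idm.sub (G k).2.1 (G (k + 1)).2.1 (hG1 k)).1.1
  · exact (Idm.sub (G k).2.1 (G (k + 1)).2.1 (hG1 k)).1.2
  · rcases lt_or_gt_of_ne hkl with h | h
    · have a1 := (hle' k l h.le).1
      have a2 := (hle' k (l + 1) (by omega)).1
      have a3 := (hle' (k + 1) l (by omega)).1
      have a4 := (hle' (k + 1) (l + 1) (by omega)).1
      rw [mul_sub, sub_mul, sub_mul, a1, a2, a3, a4]; abel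
    · have a1 := (hle' l k h.le).2
      have a2 := (hle' l (k + 1) (by omega)).2
      have a3 := (hle' (l + 1) k (by omega)).2
      have a4 := (hle' (l + 1) (k + 1) (by omega)).2
      rw [mul_sub, sub_mul, sub_mul, a1, a2, a3, a4]; abel

/-- (C) a minimal idempotent -/
theorem exists_min (hp : Fam p) (hq : Fam q) {e0 : R} (he0 : Idm hp hq e0) (hne0 : e0 ≠ 0) :
    ∃ f, Idm hp hq f ∧ f ≠ 0 ∧ ∀ g, Idm hp hq g → Le' g f → g = 0 ∨ g = f := by
  obtain ⟨n0, hn0⟩ : ∃ n0, p n0 e0 ≠ 0 := by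
    by_contra h
    push Not at h
    exact hne0 (hp.sep _ h)
  obtain ⟨f0, hf0, _, _, hf0n, hf0m⟩ := min_step hp hq n0 0 e0 he0
    (fun g _ _ => Or.inl rfl) hn0
  -- recursion
  have step : ∀ k : ℕ, ∀ f : {f : R // Idm hp hq f ∧ p (n0 + k) f ≠ 0 ∧ Mn hp hq (p (n0 + k)) f},
      ∃ f1 : {f : R // Idm hp hq f ∧ p (n0 + (k + 1)) f ≠ 0 ∧ Mn hp hq (p (n0 + (k + 1))) f},
        Le' f1.1 f.1 ∧ p (n0 + k) (f.1 - f1.1) = 0 := by
    rintro k ⟨f, hf, hfn, hfm⟩
    have hfn' : p (n0 + (k + 1)) f ≠ 0 := by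
      intro h
      apply hfn
      exact le_antisymm ((hp.mono (n0 + k) (n0 + (k + 1)) (by omega) f).trans h.le)
        (apply_nonneg _ _)
    obtain ⟨f1, h1, h2, h3, h4, h5⟩ := min_step hp hq (n0 + (k + 1)) (p (n0 + k)) f hf hfm hfn'
    exact ⟨⟨f1, h1, h4, h5⟩, h2, h3⟩
  choose F hF1 hF2 using step
  let G : (k : ℕ) → {f : R // Idm hp hq f ∧ p (n0 + k) f ≠ 0 ∧ Mn hp hq (p (n0 + k)) f} :=
    fun k => Nat.rec ⟨f0, hf0, hf0n, hf0m⟩ (fun m g => F m g) k
  have hG1 : ∀ k, Le' (G (k + 1)).1 (G k).1 := fun k => hF1 k (G k)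
  have hG2 : ∀ k, p (n0 + k) ((G k).1 - (G (k + 1)).1) = 0 := fun k => hF2 k (G k)
  have hle : ∀ k m, Le' (G (k + m)).1 (G k).1 := by
    intro k m
    induction m with
    | zero => exact Le'.refl (G k).2.1
    | succ m ih => exact (hG1 (k + m)).trans ih
  have hz : ∀ k m, p (n0 + k) ((G k).1 - (G (k + m)).1) = 0 := by
    intro k m
    induction m with
    | zero => simp
    | succ m ih =>
      have e1 : (G k).1 - (G (k + (m + 1))).1 = ((G k).1 - (G (k + m)).1) +
        ((G (k + m)).1 - (G (k + m + 1)).1) := (sub_add_sub_cancel _ _ _).symm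
      rw [e1]
      refine le_antisymm ((map_add_le_add _ _ _).trans ?_) (apply_nonneg _ _)
      rw [ih, zero_add]
      exact (hp.mono (n0 + k) (n0 + (k + m)) (by omega) _).trans (hG2 (k + m)).le
  have hz' : ∀ n k l, n ≤ n0 + k → k ≤ l → p n ((G k).1 - (G l).1) = 0 := by
    intro n k l hn hkl
    obtain ⟨m, rfl⟩ := Nat.exists_eq_add_of_le hkl
    exact le_antisymm ((hp.mono n (n0 + k) hn _).trans (hz k m).le) (apply_nonneg _ _)
  have hz'' : ∀ n k l, n ≤ n0 + k → n ≤ n0 + l → p n ((G k).1 - (G l).1) = 0 := by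
    intro n k l hk hl
    rcases le_total k l with h | h
    · exact hz' n k l hk h
    · rw [map_sub_rev]; exact hz' n l k hl h
  obtain ⟨f, hf⟩ := hp.complete (fun k => (G k).1) (by
    intro n ε hε
    refine ⟨n, fun k hk l hl => ?_⟩
    rw [hz'' n k l (by omega) (by omega)]
    exact hε)
  have hfk : ∀ n k, n ≤ n0 + k → p n ((G k).1 - f) = 0 := by
    intro n k hk
    refine le_antisymm (ge_of_tendsto (hf n) ?_) (apply_nonneg _ _)
    filter_upwards [eventually_ge_atTop k] with l hl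
    have e1 : (G k).1 - f = ((G k).1 - (G l).1) + ((G l).1 - f) := by abel
    rw [e1]
    refine (map_add_le_add _ _ _).trans ?_
    rw [hz' n k l hk hl, zero_add]
  have hπ : ∀ n k, n ≤ n0 + k → hp.π n f = hp.π n (G k).1 := by
    intro n k hk
    rw [eq_comm, ← sub_eq_zero, ← map_sub, ← norm_eq_zero, norm_pi, hfk n k hk]
  have hfid : Idm hp hq f := by
    refine ⟨?_, ?_⟩
    · refine sep_closed_p hp hq fun n ε hε => ⟨(G n).1, (G n).2.1.1, ?_⟩
      rw [map_sub_rev, hfk n n (by omega)]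
      exact hε
    · refine hp.inj fun n => ?_
      rw [map_mul, hπ n n (by omega), ← map_mul, (G n).2.1.2]
  have hfle : ∀ k, Le' f (G k).1 := by
    intro k
    constructor
    · refine hp.inj fun n => ?_
      rw [map_mul, hπ n (k + n) (by omega), ← map_mul, (hle k n).1]
    · refine hp.inj fun n => ?_
      rw [map_mul, hπ n (k + n) (by omega), ← map_mul, (hle k n).2]
  refine ⟨f, hfid, ?_, ?_⟩
  · rintro rfl
    have h1 := hfk n0 0 (by omega)
    rw [sub_zero] at h1
    exact (G 0).2.2.1 h1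
  · intro g hg hgf
    by_cases hg0 : g = 0
    · exact Or.inl hg0
    right
    obtain ⟨n1, hn1⟩ : ∃ n1, p n1 g ≠ 0 := by
      by_contra h
      push Not at h
      exact hg0 (hp.sep _ h)
    have hall : ∀ n, p n (f - g) = 0 := by
      intro n
      have hk := (G (n + n1)).2.2.2 g hg (hgf.trans (hfle _))
      rcases hk with h | h
      · exfalso
        apply hn1
        exact le_antisymm ((hp.mono n1 (n0 + (n + n1)) (by omega) g).trans h.le)
          (apply_nonneg _ _)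
      · have e1 : f - g = - ((G (n + n1)).1 - f) + ((G (n + n1)).1 - g) := by abel
        rw [e1]
        refine le_antisymm ((map_add_le_add _ _ _).trans ?_) (apply_nonneg _ _)
        rw [map_neg_eq_map, hfk n (n + n1) (by omega), zero_add]
        exact (hp.mono n (n0 + (n + n1)) (by omega) _).trans h.le
    exact (sub_eq_zero.1 (hp.sep _ hall)).symm

end Pool.Helper791.Fre
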