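import Pool.Agent.Helper791Fre.Riesz

open Complex Metric Set Filter Topology MeasureTheory
open UniformSpace

set_option linter.unusedSectionVars false
set_option linter.unusedVariables false

namespace Pool.Helper791.Fre

section Model

variable {R : Type*} [Ring R] [Algebra ℂ R]

/-- type synonym carrying the seminorm -/
def Loc (p : Seminorm ℂ R) (_ : ∀ x y, p (x * y) ≤ p x * p y) : Type _ := R

variable (p : Seminorm ℂ R) (hm : ∀ x y, p (x * y) ≤ p x * p y)

instance : Ring (Loc p hm) := inferInstanceAs (Ring R)
instance : Algebra ℂ (Loc p hm) := inferInstanceAs (Algebra ℂ R)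

/-- the ring seminorm -/
noncomputable def locSem : RingSeminorm (Loc p hm) where
  toFun := fun x => p (show R from x)
  map_zero' := map_zero p
  add_le' := fun x y => map_add_le_add p _ _
  neg' := fun x => map_neg_eq_map p _
  mul_le' := fun x y => hm _ _

noncomputable instance : SeminormedRing (Loc p hm) := (locSem p hm).toSeminormedRing

theorem loc_norm (x : Loc p hm) : ‖x‖ = p (show R from x) := rfl

noncomputable instance : NormedAlgebra ℂ (Loc p hm) :=
  { (inferInstance : Algebra ℂ (Loc p hm)) with
    norm_smul_le := fun c x => (map_smul_eq_mul p c (show R from x)).le }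

/-- the Banach algebra attached to a submultiplicative seminorm -/
def Bn : Type _ := Completion (Loc p hm)

noncomputable instance : NormedRing (Bn p hm) := inferInstanceAs (NormedRing (Completion (Loc p hm)))
noncomputable instance : Algebra ℂ (Bn p hm) := inferInstanceAs (Algebra ℂ (Completion (Loc p hm)))
noncomputable instance : NormedAlgebra ℂ (Bn p hm) :=
  { (inferInstance : Algebra ℂ (Bn p hm)) with
    norm_smul_le := fun c x => norm_smul_le (α := ℂ) (β := Completion (Loc p hm)) c x }
instance : CompleteSpace (Bn p hm) := inferInstanceAs (CompleteSpace (Completion (Loc p hm)))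

/-- the canonical map -/
noncomputable def pi' : R →ₐ[ℂ] Bn p hm :=
  { (Completion.coeRingHom : Loc p hm →+* Completion (Loc p hm)) with
    commutes' := fun c => rfl }

theorem norm_pi (a : R) : ‖pi' p hm a‖ = p a :=
  Completion.norm_coe (E := Loc p hm) a

theorem dense_pi (d : Bn p hm) {ε : ℝ} (hε : 0 < ε) : ∃ a : R, ‖pi' p hm a - d‖ < ε := by
  have h := (Completion.denseRange_coe (α := Loc p hm)).exists_dist_lt (show Completion (Loc p hm) from d) hε
  obtain ⟨a, ha⟩ := h
  refine ⟨a, ?_⟩
  rw [dist_comm] at ha
  have : dist (pi' p hm a) d < ε := ha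
  rwa [dist_eq_norm] at this

theorem ext_pi {E : Type*} [NormedAddCommGroup E] {f g : Bn p hm → E} (hf : Continuous f)
    (hg : Continuous g) (h : ∀ a, f (pi' p hm a) = g (pi' p hm a)) (d : Bn p hm) : f d = g d := by
  refine Completion.induction_on (α := Loc p hm) d (isClosed_eq hf hg) fun a => h a

variable {p hm} {q : Seminorm ℂ R} {hq : ∀ x y, q (x * y) ≤ q x * q y}

/-- the identity as a ring hom between the synonyms -/
noncomputable def idLoc : Loc q hq →+* Loc p hm := RingHom.id R

theorem idLoc_cont (h : ∀ x, p x ≤ q x) : Continuous (idLoc : Loc q hq →+* Loc p hm) := by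
  refine AddMonoidHomClass.continuous_of_bound (idLoc : Loc q hq →+* Loc p hm) 1 fun x => ?_
  rw [one_mul]
  exact h _

/-- connecting map -/
noncomputable def conn (h : ∀ x, p x ≤ q x) : Bn q hq →L[ℂ] Bn p hm where
  toFun := Completion.mapRingHom (idLoc : Loc q hq →+* Loc p hm) (idLoc_cont h)
  map_add' := map_add _
  map_smul' := by
    intro c d
    have := Completion.induction_on (α := Loc q hq)
      (p := fun d => Completion.mapRingHom (idLoc : Loc q hq →+* Loc p hm) (idLoc_cont h) (c • d) =
        c • Completion.mapRingHom (idLoc : Loc q hq →+* Loc p hm) (idLoc_cont h) d) d ?_ ?_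
    · exact this
    · refine isClosed_eq ?_ ?_
      · exact (Completion.continuous_map (f := (idLoc : Loc q hq →+* Loc p hm))).comp
          (continuous_const_smul c)
      · exact (Completion.continuous_map (f := (idLoc : Loc q hq →+* Loc p hm))).const_smul c
    · intro a
      rw [← Completion.coe_smul, Completion.mapRingHom_coe, Completion.mapRingHom_coe,
        ← Completion.coe_smul]
      rfl
  cont := Completion.continuous_map

theorem conn_pi (h : ∀ x, p x ≤ q x) (a : R) : conn (hm := hm) (hq := hq) h (pi' q hq a) = pi' p hm a :=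
  Completion.mapRingHom_coe (idLoc_cont (hm := hm) (hq := hq) h) a

theorem conn_mul (h : ∀ x, p x ≤ q x) (a b : Bn q hq) :
    conn (hm := hm) h (a * b) = conn (hm := hm) h a * conn (hm := hm) h b :=
  map_mul (Completion.mapRingHom (idLoc : Loc q hq →+* Loc p hm) (idLoc_cont h)) a b

theorem conn_one (h : ∀ x, p x ≤ q x) :
    conn (hm := hm) (hq := hq) h 1 = 1 :=
  map_one (Completion.mapRingHom (idLoc : Loc q hq →+* Loc p hm) (idLoc_cont h))

theorem conn_norm (h : ∀ x, p x ≤ q x) (d : Bn q hq) : ‖conn (hm := hm) h d‖ ≤ ‖d‖ := by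
  refine Completion.induction_on (α := Loc q hq) d
    (isClosed_le ((conn (hm := hm) h).continuous.norm) continuous_norm) fun a => ?_
  have h1 := conn_pi (hm := hm) (hq := hq) h a
  have h2 := norm_pi p hm a
  have h3 := norm_pi q hq a
  calc ‖conn (hm := hm) h (pi' q hq a)‖ = p a := by rw [h1, h2]
    _ ≤ q a := h a
    _ = ‖pi' q hq a‖ := h3.symm

end Model

end Pool.Helper791.Fre
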