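import Mathlib

open Complex Metric Set Filter Topology MeasureTheory
open scoped Real

set_option linter.unusedSectionVars false
set_option linter.unusedVariables false

namespace Pool.Helper791.Fre

section Riesz

variable {D : Type*} [NormedRing D] [NormedAlgebra ℂ D] [CompleteSpace D]

/-- weighted Riesz integral -/
noncomputable def rz (g : ℂ → ℂ) (x : D) (c : ℂ) (ρ : ℝ) : D :=
  (2 * π * I : ℂ)⁻¹ • ∮ z in C(c, ρ), g z • resolvent x z

theorem clm_circle {E F : Type*} [NormedAddCommGroup E] [NormedSpace ℂ E] [CompleteSpace E]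
    [NormedAddCommGroup F] [NormedSpace ℂ F] [CompleteSpace F]
    (L : E →L[ℂ] F) (f : ℂ → E) (c : ℂ) (ρ : ℝ) (hf : CircleIntegrable f c ρ) :
    L (∮ z in C(c, ρ), f z) = ∮ z in C(c, ρ), L (f z) := by
  unfold circleIntegral
  rw [← ContinuousLinearMap.intervalIntegral_comp_comm]
  · congr 1; ext θ; simp
  · exact hf.out

/-- the punctured closed disc of radius `r` about `c` is in the resolvent set -/
def Pun (x : D) (c : ℂ) (r : ℝ) : Prop :=
  ∀ z, z ≠ c → ‖z - c‖ ≤ r → IsUnit (algebraMap ℂ D z - x)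

theorem Pun.mono {x : D} {c : ℂ} {r ρ : ℝ} (h : Pun x c r) (hρ : ρ ≤ r) : Pun x c ρ :=
  fun z hz hz' => h z hz (hz'.trans hρ)

theorem Pun.diff {x : D} {c : ℂ} {r : ℝ} (h : Pun x c r) {z : ℂ} (hz : z ≠ c)
    (hz' : ‖z - c‖ ≤ r) : DifferentiableAt ℂ (resolvent x) z :=
  (spectrum.hasDerivAt_resolvent_const_left (h z hz hz')).differentiableAt

theorem sphere_ne {c z : ℂ} {ρ : ℝ} (hρ : 0 < ρ) (hz : z ∈ sphere c ρ) : z ≠ c := by
  rintro rfl
  simp at hz
  exact hρ.ne hz

theorem sphere_norm {c z : ℂ} {ρ : ℝ} (hz : z ∈ sphere c ρ) : ‖z - c‖ = ρ := by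
  rwa [mem_sphere_iff_norm] at hz

theorem Pun.cont {x : D} {c : ℂ} {ρ : ℝ} (h : Pun x c ρ) (hρ : 0 < ρ) :
    ContinuousOn (resolvent x) (sphere c ρ) := fun _ hz =>
  (h.diff (sphere_ne hρ hz) (sphere_norm hz).le).continuousAt.continuousWithinAt

theorem Pun.cont_smul {x : D} {c : ℂ} {ρ : ℝ} (h : Pun x c ρ) (hρ : 0 < ρ) {g : ℂ → ℂ}
    (hg : ContinuousOn g (sphere c ρ)) :
    ContinuousOn (fun z => g z • resolvent x z) (sphere c ρ) :=
  hg.smul (h.cont hρ)

theorem rz_indep {x : D} {c : ℂ} {r ρ : ℝ} (h : Pun x c r) (hρ : 0 < ρ) (hρr : ρ ≤ r)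
    {g : ℂ → ℂ} (hg : ∀ z, z ≠ c → ‖z - c‖ ≤ r → DifferentiableAt ℂ g z) :
    rz g x c r = rz g x c ρ := by
  unfold rz
  congr 1
  have key : ∀ z ∈ closedBall c r \ ball c ρ, DifferentiableAt ℂ (fun z => g z • resolvent x z) z := by
    rintro z ⟨hz1, hz2⟩
    have hne : z ≠ c := by
      rintro rfl
      exact hz2 (mem_ball_self hρ)
    have hle : ‖z - c‖ ≤ r := by rwa [mem_closedBall, dist_eq_norm] at hz1
    exact (hg z hne hle).smul (h.diff hne hle)
  refine circleIntegral_eq_of_differentiable_on_annulus_off_countable hρ hρr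
    (s := ∅) countable_empty ?_ ?_
  · intro z hz
    exact (key z hz).continuousAt.continuousWithinAt
  · rintro z ⟨⟨hz1, hz2⟩, -⟩
    exact key z ⟨ball_subset_closedBall hz1, fun hh => hz2 (ball_subset_closedBall hh)⟩

theorem norm_rz_le {x : D} {c : ℂ} {ρ M : ℝ} (hρ : 0 ≤ ρ) {g : ℂ → ℂ}
    (hM : ∀ z ∈ sphere c ρ, ‖g z • resolvent x z‖ ≤ M) : ‖rz g x c ρ‖ ≤ ρ * M :=
  circleIntegral.norm_two_pi_i_inv_smul_integral_le_of_norm_le_const hρ hM

theorem two_pi_I_ne : (2 * π * I : ℂ) ≠ 0 := by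
  simp [Real.pi_ne_zero]

/-- product with a left factor -/
theorem mul_rz {x a : D} {c : ℂ} {ρ : ℝ} (h : Pun x c ρ) (hρ : 0 < ρ) {g : ℂ → ℂ}
    (hg : ContinuousOn g (sphere c ρ)) :
    a * rz g x c ρ = (2 * π * I : ℂ)⁻¹ • ∮ z in C(c, ρ), g z • (a * resolvent x z) := by
  unfold rz
  rw [mul_smul_comm]
  congr 1
  have := clm_circle (ContinuousLinearMap.mul ℂ D a) (fun z => g z • resolvent x z) c ρ
    ((h.cont_smul hρ hg).circleIntegrable hρ.le)
  simpa using this

theorem rz_mul {x a : D} {c : ℂ} {ρ : ℝ} (h : Pun x c ρ) (hρ : 0 < ρ) {g : ℂ → ℂ}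
    (hg : ContinuousOn g (sphere c ρ)) :
    rz g x c ρ * a = (2 * π * I : ℂ)⁻¹ • ∮ z in C(c, ρ), g z • (resolvent x z * a) := by
  unfold rz
  rw [smul_mul_assoc]
  congr 1
  have := clm_circle ((ContinuousLinearMap.mul ℂ D).flip a) (fun z => g z • resolvent x z) c ρ
    ((h.cont_smul hρ hg).circleIntegrable hρ.le)
  simpa using this

theorem res_left {x : D} {z : ℂ} (h : IsUnit (algebraMap ℂ D z - x)) :
    resolvent x z * (algebraMap ℂ D z - x) = 1 := by
  unfold resolvent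
  exact Ring.inverse_mul_cancel _ h

theorem res_right {x : D} {z : ℂ} (h : IsUnit (algebraMap ℂ D z - x)) :
    (algebraMap ℂ D z - x) * resolvent x z = 1 := by
  unfold resolvent
  exact Ring.mul_inverse_cancel _ h

/-- `(μ - x) R(z) = 1 + (μ - z) R(z)` -/
theorem shift_right {x : D} {z μ : ℂ} (h : IsUnit (algebraMap ℂ D z - x)) :
    (algebraMap ℂ D μ - x) * resolvent x z = 1 + (μ - z) • resolvent x z := by
  have h1 : algebraMap ℂ D μ - x = (algebraMap ℂ D z - x) + algebraMap ℂ D (μ - z) := by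
    rw [map_sub]; abel
  rw [h1, add_mul, res_right h, Algebra.smul_def]

theorem shift_left {x : D} {z μ : ℂ} (h : IsUnit (algebraMap ℂ D z - x)) :
    resolvent x z * (algebraMap ℂ D μ - x) = 1 + (μ - z) • resolvent x z := by
  have h1 : algebraMap ℂ D μ - x = (algebraMap ℂ D z - x) + algebraMap ℂ D (μ - z) := by
    rw [map_sub]; abel
  rw [h1, mul_add, res_left h, Algebra.smul_def, Algebra.commutes]

/-- the main bookkeeping identity -/
theorem shift_rz {x : D} {c μ : ℂ} {ρ : ℝ} (h : Pun x c ρ) (hρ : 0 < ρ) {g : ℂ → ℂ}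
    (hg : ContinuousOn g (sphere c ρ)) :
    (algebraMap ℂ D μ - x) * rz g x c ρ =
      algebraMap ℂ D ((2 * π * I : ℂ)⁻¹ * ∮ z in C(c, ρ), g z) +
        rz (fun z => g z * (μ - z)) x c ρ ∧
    rz g x c ρ * (algebraMap ℂ D μ - x) =
      algebraMap ℂ D ((2 * π * I : ℂ)⁻¹ * ∮ z in C(c, ρ), g z) +
        rz (fun z => g z * (μ - z)) x c ρ := by
  have hcont2 : ContinuousOn (fun z => (g z * (μ - z)) • resolvent x z) (sphere c ρ) :=
    h.cont_smul hρ (hg.mul (continuousOn_const.sub continuousOn_id))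
  have hI : (∮ z in C(c, ρ), (g z • (1 : D) + (g z * (μ - z)) • resolvent x z)) =
      (∮ z in C(c, ρ), g z) • (1 : D) + ∮ z in C(c, ρ), (g z * (μ - z)) • resolvent x z := by
    rw [circleIntegral.integral_add, circleIntegral.integral_smul_const]
    · exact (hg.smul continuousOn_const).circleIntegrable hρ.le
    · exact hcont2.circleIntegrable hρ.le
  constructor
  · rw [mul_rz h hρ hg]
    have : (∮ z in C(c, ρ), g z • ((algebraMap ℂ D μ - x) * resolvent x z)) =
        ∮ z in C(c, ρ), (g z • (1 : D) + (g z * (μ - z)) • resolvent x z) := by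
      refine circleIntegral.integral_congr hρ.le fun z hz => ?_
      rw [shift_right (h z (sphere_ne hρ hz) (sphere_norm hz).le), smul_add, smul_smul]
    rw [this, hI, smul_add, smul_smul, ← Algebra.algebraMap_eq_smul_one]
    rfl
  · rw [rz_mul h hρ hg]
    have : (∮ z in C(c, ρ), g z • (resolvent x z * (algebraMap ℂ D μ - x))) =
        ∮ z in C(c, ρ), (g z • (1 : D) + (g z * (μ - z)) • resolvent x z) := by
      refine circleIntegral.integral_congr hρ.le fun z hz => ?_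
      rw [shift_left (h z (sphere_ne hρ hz) (sphere_norm hz).le), smul_add, smul_smul]
    rw [this, hI, smul_add, smul_smul, ← Algebra.algebraMap_eq_smul_one]
    rfl

theorem rz_congr {x : D} {c : ℂ} {ρ : ℝ} (hρ : 0 ≤ ρ) {g g' : ℂ → ℂ}
    (h : ∀ z ∈ sphere c ρ, g z = g' z) : rz g x c ρ = rz g' x c ρ := by
  unfold rz
  congr 1
  refine circleIntegral.integral_congr hρ fun z hz => ?_
  simp only [h z hz]

theorem rz_neg {x : D} {c : ℂ} {ρ : ℝ} {g : ℂ → ℂ} :
    rz (fun z => - g z) x c ρ = - rz g x c ρ := by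
  unfold rz
  rw [← smul_neg]
  congr 1
  simp only [neg_smul]
  unfold circleIntegral
  simp

/-- Laurent coefficients of the resolvent -/
noncomputable def la (x : D) (c : ℂ) (r : ℝ) (j : ℤ) : D := rz (fun z => (z - c) ^ j) x c r

theorem zpow_cont {c : ℂ} {ρ : ℝ} (hρ : 0 < ρ) (j : ℤ) :
    ContinuousOn (fun z : ℂ => (z - c) ^ j) (sphere c ρ) := fun z hz =>
  ((continuousAt_id.sub continuousAt_const).zpow₀ j
    (Or.inl (sub_ne_zero.2 (sphere_ne hρ hz)))).continuousWithinAt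

theorem la_indep {x : D} {c : ℂ} {r ρ : ℝ} (h : Pun x c r) (hρ : 0 < ρ) (hρr : ρ ≤ r) (j : ℤ) :
    la x c r j = la x c ρ j := by
  refine rz_indep h hρ hρr fun z hz _ => ?_
  exact (differentiableAt_id.sub_const c).zpow (Or.inl (sub_ne_zero.2 hz))

theorem la_succ {x : D} {c : ℂ} {r : ℝ} (h : Pun x c r) (hr : 0 < r) {j : ℤ} (hj : j ≠ -1) :
    la x c r (j + 1) = (x - algebraMap ℂ D c) * la x c r j := by
  have h1 := (shift_rz (μ := c) h hr (zpow_cont hr j)).1
  rw [circleIntegral.integral_sub_zpow_of_ne hj, mul_zero, map_zero, zero_add] at h1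
  have h2 : rz (fun z => (z - c) ^ j * (c - z)) x c r = - la x c r (j + 1) := by
    rw [la, ← rz_neg]
    refine rz_congr hr.le fun z hz => ?_
    rw [zpow_add_one₀ (sub_ne_zero.2 (sphere_ne hr hz))]
    ring
  rw [h2] at h1
  have h3 : (x - algebraMap ℂ D c) * la x c r j = - ((algebraMap ℂ D c - x) * la x c r j) := by
    noncomm_ring
  rw [h3]
  unfold la at h1 ⊢
  rw [h1, neg_neg]

theorem la_zero' {x : D} {c : ℂ} {r : ℝ} (h : Pun x c r) (hr : 0 < r) :
    (algebraMap ℂ D c - x) * la x c r (-1) = 1 - la x c r 0 ∧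
    la x c r (-1) * (algebraMap ℂ D c - x) = 1 - la x c r 0 := by
  have h1 := shift_rz (μ := c) h hr (zpow_cont hr (-1))
  have h0 : (∮ z in C(c, r), (z - c) ^ (-1 : ℤ)) = 2 * π * I := by
    simp only [zpow_neg, zpow_one]
    exact circleIntegral.integral_sub_center_inv c hr.ne'
  rw [h0, inv_mul_cancel₀ two_pi_I_ne, map_one] at h1
  have h2 : rz (fun z => (z - c) ^ (-1 : ℤ) * (c - z)) x c r = - la x c r 0 := by
    rw [la, ← rz_neg]
    refine rz_congr hr.le fun z hz => ?_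
    have := sub_ne_zero.2 (sphere_ne hr hz)
    rw [zpow_neg, zpow_one, zpow_zero]
    field_simp
    ring
  rw [h2] at h1
  unfold la
  unfold la at h1
  rw [h1.1, h1.2]
  constructor <;> abel

theorem e_comm {x : D} {c : ℂ} {r : ℝ} (h : Pun x c r) (hr : 0 < r) (j : ℤ) :
    x * la x c r j = la x c r j * x := by
  have h1 := shift_rz (μ := c) h hr (zpow_cont hr j)
  have h2 : (algebraMap ℂ D c - x) * la x c r j = la x c r j * (algebraMap ℂ D c - x) := by
    unfold la; rw [h1.1, h1.2]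
  rw [sub_mul, mul_sub, Algebra.commutes] at h2
  exact sub_right_inj.1 h2

theorem la_nat {x : D} {c : ℂ} {r : ℝ} (h : Pun x c r) (hr : 0 < r) (j : ℕ) :
    la x c r j = (x - algebraMap ℂ D c) ^ j * la x c r 0 := by
  induction j with
  | zero => simp
  | succ j ih =>
    have : ((j + 1 : ℕ) : ℤ) = (j : ℤ) + 1 := by push_cast; ring
    rw [this, la_succ h hr (by omega), ih, ← mul_assoc, ← pow_succ']

theorem la_neg {x : D} {c : ℂ} {r : ℝ} (h : Pun x c r) (hr : 0 < r) (j : ℕ) :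
    (x - algebraMap ℂ D c) ^ (j + 1) * la x c r (-(j + 1 : ℤ)) = la x c r 0 - 1 := by
  induction j with
  | zero =>
    have := (la_zero' h hr).1
    have h3 : (x - algebraMap ℂ D c) * la x c r (-1) =
        - ((algebraMap ℂ D c - x) * la x c r (-1)) := by noncomm_ring
    simp only [zero_add, pow_one, Nat.cast_zero]
    rw [h3, this]; abel
  | succ j ih =>
    have h1 : la x c r (-(((j + 1 : ℕ) : ℤ) + 1) + 1) =
      (x - algebraMap ℂ D c) * la x c r (-(((j + 1 : ℕ) : ℤ) + 1)) :=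
      la_succ h hr (by push_cast; omega)
    rw [pow_succ, mul_assoc, ← h1]
    have h2 : -(((j + 1 : ℕ) : ℤ) + 1) + 1 = -((j : ℤ) + 1) := by push_cast; ring
    rw [h2, ih]

theorem e_sq_bound {x : D} {c : ℂ} {r : ℝ} (h : Pun x c r) (hr : 0 < r) (j : ℕ) :
    la x c r 0 * (la x c r 0 - 1) = la x c r ((j : ℤ) + 1) * la x c r (-(j + 1 : ℤ)) := by
  rw [← la_neg h hr j]
  have h1 := la_nat h hr (j + 1)
  push_cast at h1
  rw [h1, ← mul_assoc]
  congr 1
  have hc : Commute (la x c r 0) (x - algebraMap ℂ D c) := by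
    refine Commute.sub_right (e_comm h hr 0).symm ?_
    exact (Algebra.commutes c (la x c r 0)).symm
  exact (hc.pow_right (j + 1)).eq

theorem e_idem {x : D} {c : ℂ} {r : ℝ} (h : Pun x c r) (hr : 0 < r) :
    la x c r 0 * la x c r 0 = la x c r 0 := by
  have hr2 : 0 < r / 2 := by positivity
  have hP2 : Pun x c (r / 2) := h.mono (by linarith)
  obtain ⟨M1, hM1⟩ := (isCompact_sphere c r).exists_bound_of_continuousOn (h.cont hr)
  obtain ⟨M2, hM2⟩ := (isCompact_sphere c (r/2)).exists_bound_of_continuousOn (hP2.cont hr2)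
  have b1 : ∀ j : ℕ, ‖la x c r (-(j + 1 : ℤ))‖ ≤ r * (r⁻¹ ^ (j + 1) * max M1 0) := by
    intro j
    refine norm_rz_le hr.le fun z hz => ?_
    rw [norm_smul, norm_zpow, sphere_norm hz, zpow_neg, inv_pow]
    have : r ^ ((j : ℤ) + 1) = r ^ (j + 1) := by exact_mod_cast rfl
    rw [this]
    gcongr
    exact (hM1 z hz).trans (le_max_left _ _)
  have b2 : ∀ j : ℕ, ‖la x c r ((j : ℤ) + 1)‖ ≤ (r / 2) * ((r / 2) ^ (j + 1) * max M2 0) := by
    intro j
    rw [la_indep h hr2 (by linarith)]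
    refine norm_rz_le hr2.le fun z hz => ?_
    rw [norm_smul, norm_zpow, sphere_norm hz]
    have : (r/2) ^ ((j : ℤ) + 1) = (r/2) ^ (j + 1) := by exact_mod_cast rfl
    rw [this]
    gcongr
    exact (hM2 z hz).trans (le_max_left _ _)
  have b3 : ∀ j : ℕ, ‖la x c r 0 * (la x c r 0 - 1)‖ ≤
      (r / 2 * r * max M1 0 * max M2 0) * (1 / 2) ^ (j + 1) := by
    intro j
    rw [e_sq_bound h hr j]
    refine (norm_mul_le _ _).trans ?_
    refine (mul_le_mul (b2 j) (b1 j) (norm_nonneg _) (by positivity)).trans ?_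
    have : r / 2 * ((r / 2) ^ (j + 1) * max M2 0) * (r * (r⁻¹ ^ (j + 1) * max M1 0)) =
      (r / 2 * r * max M1 0 * max M2 0) * ((r / 2) * r⁻¹) ^ (j + 1) := by
      rw [mul_pow]; ring
    rw [this]
    have h2 : r / 2 * r⁻¹ = 1 / 2 := by field_simp
    rw [h2]
  have lim : Tendsto (fun j : ℕ => (r / 2 * r * max M1 0 * max M2 0) * (1 / 2 : ℝ) ^ (j + 1))
      atTop (𝓝 0) := by
    have h1 : Tendsto (fun j : ℕ => (1 / 2 : ℝ) ^ (j + 1)) atTop (𝓝 0) :=
      (tendsto_pow_atTop_nhds_zero_of_lt_one (by norm_num) (by norm_num)).comp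
        (tendsto_add_atTop_nat 1)
    simpa using h1.const_mul (r / 2 * r * max M1 0 * max M2 0)
  have h0 : ‖la x c r 0 * (la x c r 0 - 1)‖ ≤ 0 := ge_of_tendsto' lim b3
  have h1 := norm_le_zero_iff.1 h0
  rw [mul_sub, mul_one, sub_eq_zero] at h1
  exact h1

theorem e_off {x : D} {c : ℂ} {r : ℝ} (h : Pun x c r) (hr : 0 < r) {μ : ℂ} (hμ : μ ≠ c) :
    ∃ y : D, y * (algebraMap ℂ D μ - x) = la x c r 0 ∧
      (algebraMap ℂ D μ - x) * y = la x c r 0 := by
  have hd : 0 < ‖μ - c‖ := norm_pos_iff.2 (sub_ne_zero.2 hμ)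
  set ρ := min r (‖μ - c‖ / 2) with hρdef
  have hρ : 0 < ρ := lt_min hr (by linarith)
  have hρr : ρ ≤ r := min_le_left _ _
  have hρμ : ρ < ‖μ - c‖ := (min_le_right _ _).trans_lt (by linarith)
  have hP : Pun x c ρ := h.mono hρr
  have hne : ∀ z, ‖z - c‖ ≤ ρ → μ - z ≠ 0 := by
    intro z hz h0
    rw [sub_eq_zero] at h0
    rw [h0] at hρμ
    linarith
  have hg : ContinuousOn (fun z => (μ - z)⁻¹) (sphere c ρ) := by
    refine ContinuousOn.inv₀ (continuousOn_const.sub continuousOn_id) fun z hz => ?_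
    exact hne z (sphere_norm hz).le
  have hint : (∮ z in C(c, ρ), (μ - z)⁻¹) = 0 := by
    refine circleIntegral_eq_zero_of_differentiable_on_off_countable hρ.le (s := ∅)
      countable_empty ?_ ?_
    · refine ContinuousOn.inv₀ (continuousOn_const.sub continuousOn_id) fun z hz => ?_
      exact hne z (by rwa [mem_closedBall, dist_eq_norm] at hz)
    · rintro z ⟨hz, -⟩
      refine DifferentiableAt.inv ((differentiableAt_const _).sub differentiableAt_id) ?_
      exact hne z (by rw [mem_ball, dist_eq_norm] at hz; exact hz.le)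
  refine ⟨rz (fun z => (μ - z)⁻¹) x c ρ, ?_⟩
  have h1 := shift_rz (μ := μ) hP hρ hg
  rw [hint, mul_zero, map_zero, zero_add] at h1
  have h2 : rz (fun z => (μ - z)⁻¹ * (μ - z)) x c ρ = la x c r 0 := by
    rw [la_indep h hρ hρr, la]
    refine rz_congr hρ.le fun z hz => ?_
    rw [inv_mul_cancel₀ (hne z (sphere_norm hz).le), zpow_zero]
  rw [h2] at h1
  exact ⟨h1.2, h1.1⟩

theorem e_ne_zero {x : D} {c : ℂ} {r : ℝ} (h : Pun x c r) (hr : 0 < r)
    (hc : ¬ IsUnit (algebraMap ℂ D c - x)) : la x c r 0 ≠ 0 := by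
  intro h0
  apply hc
  have h1 := la_zero' h hr
  rw [h0, sub_zero] at h1
  exact ⟨⟨_, _, h1.1, h1.2⟩, rfl⟩

/-- compatibility with continuous unital homomorphisms -/
theorem map_la {D' : Type*} [NormedRing D'] [NormedAlgebra ℂ D'] [CompleteSpace D']
    (φ : D →L[ℂ] D') (hφm : ∀ a b, φ (a * b) = φ a * φ b) (hφ1 : φ 1 = 1)
    {x : D} {c : ℂ} {r : ℝ} (h : Pun x c r) (hr : 0 < r) (j : ℤ) :
    φ (la x c r j) = la (φ x) c r j := by
  unfold la rz
  rw [map_smul]
  congr 1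
  rw [clm_circle φ _ c r ((h.cont_smul hr (zpow_cont hr j)).circleIntegrable hr.le)]
  refine circleIntegral.integral_congr hr.le fun z hz => ?_
  have hu := h z (sphere_ne hr hz) (sphere_norm hz).le
  simp only [map_smul]
  congr 1
  have hA : ∀ w : ℂ, φ (algebraMap ℂ D w) = algebraMap ℂ D' w := by
    intro w
    rw [Algebra.algebraMap_eq_smul_one, map_smul, hφ1, ← Algebra.algebraMap_eq_smul_one]
  have h1 : φ (resolvent x z) * (algebraMap ℂ D' z - φ x) = 1 := by
    rw [← hA, ← map_sub, ← hφm, res_left hu, hφ1]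
  have h2 : (algebraMap ℂ D' z - φ x) * φ (resolvent x z) = 1 := by
    rw [← hA, ← map_sub, ← hφm, res_right hu, hφ1]
  have hu' : IsUnit (algebraMap ℂ D' z - φ x) := ⟨⟨_, _, h2, h1⟩, rfl⟩
  calc φ (resolvent x z) = φ (resolvent x z) * ((algebraMap ℂ D' z - φ x) * resolvent (φ x) z) := by
        rw [res_right hu', mul_one]
    _ = resolvent (φ x) z := by rw [← mul_assoc, h1, one_mul]

end Riesz

end Pool.Helper791.Fre
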