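import Pool.Agent.Helper791Fre.Glue

open Complex Metric Set Filter Topology MeasureTheory

set_option linter.unusedSectionVars false
set_option linter.unusedVariables false

namespace Pool.Helper791.Fre

variable {R : Type*} [Ring R] [Algebra ℂ R]
variable {p q : ℕ → Seminorm ℂ R}

/-- the separating space of two families -/
def Sep (hp : Fam p) (hq : Fam q) : Submodule ℂ R where
  carrier := {x | ∀ n : ℕ, ∀ ε : ℝ, 0 < ε → ∃ u, q n u < ε ∧ p n (x - u) < ε}
  zero_mem' := fun n ε hε => ⟨0, by simpa using hε, by simpa using hε⟩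
  add_mem' := by
    intro x y hx hy n ε hε
    obtain ⟨u, hu1, hu2⟩ := hx n (ε / 2) (half_pos hε)
    obtain ⟨v, hv1, hv2⟩ := hy n (ε / 2) (half_pos hε)
    refine ⟨u + v, ?_, ?_⟩
    · linarith [map_add_le_add (q n) u v]
    · have : x + y - (u + v) = (x - u) + (y - v) := by abel
      rw [this]
      linarith [map_add_le_add (p n) (x - u) (y - v)]
  smul_mem' := by
    intro c x hx n ε hε
    obtain ⟨u, hu1, hu2⟩ := hx n (ε / (‖c‖ + 1)) (by positivity)
    have hc : 0 < ‖c‖ + 1 := by positivity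
    refine ⟨c • u, ?_, ?_⟩
    · rw [map_smul_eq_mul]
      rw [lt_div_iff₀ hc] at hu1
      nlinarith [apply_nonneg (q n) u, norm_nonneg c]
    · rw [← smul_sub, map_smul_eq_mul]
      rw [lt_div_iff₀ hc] at hu2
      nlinarith [apply_nonneg (p n) (x - u), norm_nonneg c]

variable (hp : Fam p) (hq : Fam q)

theorem mem_sep {x : R} : x ∈ Sep hp hq ↔
    ∀ n : ℕ, ∀ ε : ℝ, 0 < ε → ∃ u, q n u < ε ∧ p n (x - u) < ε := Iff.rfl

theorem sep_symm {x : R} (hx : x ∈ Sep hp hq) : x ∈ Sep hq hp := by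
  intro n ε hε
  obtain ⟨u, hu1, hu2⟩ := hx n ε hε
  exact ⟨x - u, hu2, by simpa using hu1⟩

theorem sep_closed_p {x : R} (h : ∀ n : ℕ, ∀ ε : ℝ, 0 < ε → ∃ y ∈ Sep hp hq, p n (x - y) < ε) :
    x ∈ Sep hp hq := by
  intro n ε hε
  obtain ⟨y, hy, hxy⟩ := h n (ε / 2) (half_pos hε)
  obtain ⟨u, hu1, hu2⟩ := hy n (ε / 2) (half_pos hε)
  refine ⟨u, by linarith, ?_⟩
  have : x - u = (x - y) + (y - u) := by abel
  rw [this]
  linarith [map_add_le_add (p n) (x - y) (y - u)]

theorem sep_closed_q {x : R} (h : ∀ n : ℕ, ∀ ε : ℝ, 0 < ε → ∃ y ∈ Sep hp hq, q n (x - y) < ε) :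
    x ∈ Sep hp hq := by
  apply sep_symm hq hp
  apply sep_closed_p hq hp
  intro n ε hε
  obtain ⟨y, hy, hxy⟩ := h n ε hε
  exact ⟨y, sep_symm hp hq hy, hxy⟩

theorem sep_mul_left {x : R} (a : R) (hx : x ∈ Sep hp hq) : a * x ∈ Sep hp hq := by
  intro n ε hε
  set C := p n a + q n a + 1 with hC
  have hCpos : 0 < C := by positivity
  obtain ⟨u, hu1, hu2⟩ := hx n (ε / C) (by positivity)
  rw [lt_div_iff₀ hCpos] at hu1 hu2
  have h1 := apply_nonneg (p n) a
  have h2 := apply_nonneg (q n) a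
  have h3 := apply_nonneg (q n) u
  have h4 := apply_nonneg (p n) (x - u)
  refine ⟨a * u, ?_, ?_⟩
  · refine (hq.mul n a u).trans_lt ?_
    nlinarith
  · rw [← mul_sub]
    refine (hp.mul n a (x - u)).trans_lt ?_
    nlinarith

theorem sep_mul_right {x : R} (a : R) (hx : x ∈ Sep hp hq) : x * a ∈ Sep hp hq := by
  intro n ε hε
  set C := p n a + q n a + 1 with hC
  have hCpos : 0 < C := by positivity
  obtain ⟨u, hu1, hu2⟩ := hx n (ε / C) (by positivity)
  rw [lt_div_iff₀ hCpos] at hu1 hu2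
  have h1 := apply_nonneg (p n) a
  have h2 := apply_nonneg (q n) a
  have h3 := apply_nonneg (q n) u
  have h4 := apply_nonneg (p n) (x - u)
  refine ⟨u * a, ?_, ?_⟩
  · refine (hq.mul n u a).trans_lt ?_
    nlinarith
  · rw [← sub_mul]
    refine (hp.mul n (x - u) a).trans_lt ?_
    nlinarith

/-- summing small terms -/
theorem series (hq : Fam q) (x : ℕ → R) (h : ∀ j k, j ≤ k → q j (x k) ≤ (1 / 2) ^ k) :
    ∃ z, ∀ j, Tendsto (fun K => q j ((∑ i ∈ Finset.range K, x i) - z)) atTop (𝓝 0) := by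
  have tail : ∀ j N m, j ≤ N → q j ((∑ i ∈ Finset.range (N + m), x i) - ∑ i ∈ Finset.range N, x i)
      ≤ 2 * (1 / 2) ^ N - 2 * (1 / 2) ^ (N + m) := by
    intro j N m hj
    induction m with
    | zero => simp
    | succ m ih =>
      rw [← add_assoc, Finset.sum_range_succ]
      have e1 : (∑ i ∈ Finset.range (N + m), x i) + x (N + m) - ∑ i ∈ Finset.range N, x i =
        ((∑ i ∈ Finset.range (N + m), x i) - ∑ i ∈ Finset.range N, x i) + x (N + m) := by abel
      rw [e1]
      have h1 := h j (N + m) (by omega)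
      have h2 := map_add_le_add (q j) ((∑ i ∈ Finset.range (N + m), x i) -
        ∑ i ∈ Finset.range N, x i) (x (N + m))
      have h3 : (1 / 2 : ℝ) ^ (N + m + 1) = (1 / 2) ^ (N + m) * (1 / 2) := pow_succ _ _
      rw [h3]
      linarith
  have tail' : ∀ j N k, j ≤ N → N ≤ k →
      q j ((∑ i ∈ Finset.range k, x i) - ∑ i ∈ Finset.range N, x i) ≤ 2 * (1 / 2) ^ N := by
    intro j N k hj hk
    obtain ⟨m, rfl⟩ := Nat.exists_eq_add_of_le hk
    have h1 := tail j N m hj
    have h2 : (0 : ℝ) < (1 / 2) ^ (N + m) := by positivity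
    linarith
  refine hq.complete _ fun n ε hε => ?_
  have hlim : Tendsto (fun k : ℕ => 4 * (1 / 2 : ℝ) ^ k) atTop (𝓝 0) := by
    simpa using (tendsto_pow_atTop_nhds_zero_of_lt_one (by norm_num : (0 : ℝ) ≤ 1 / 2)
      (by norm_num)).const_mul 4
  obtain ⟨N, hN⟩ := (hlim.eventually (gt_mem_nhds hε)).exists_forall_of_atTop
  refine ⟨max N n, fun k hk l hl => ?_⟩
  have h1 := tail' n (max N n) k (le_max_right _ _) hk
  have h2 := tail' n (max N n) l (le_max_right _ _) hl
  have h3 := hN (max N n) (le_max_left _ _)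
  have e1 : (∑ i ∈ Finset.range k, x i) - ∑ i ∈ Finset.range l, x i =
    ((∑ i ∈ Finset.range k, x i) - ∑ i ∈ Finset.range (max N n), x i) -
    ((∑ i ∈ Finset.range l, x i) - ∑ i ∈ Finset.range (max N n), x i) := by abel
  rw [e1]
  have h4 := map_sub_le_add (q n) ((∑ i ∈ Finset.range k, x i) - ∑ i ∈ Finset.range (max N n), x i)
    ((∑ i ∈ Finset.range l, x i) - ∑ i ∈ Finset.range (max N n), x i)
  linarith

/-- (C1): no infinite orthogonal sequence of idempotents of the separating space that are all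
nonzero for one seminorm -/
theorem no_orth (n : ℕ) (e : ℕ → R) (he : ∀ k, e k ∈ Sep hp hq) (hid : ∀ k, e k * e k = e k)
    (horth : ∀ k l, k ≠ l → e k * e l = 0) (hne : ∀ k, p n (e k) ≠ 0) : False := by
  have hpos : ∀ k, 0 < p n (e k) := fun k => lt_of_le_of_ne (apply_nonneg _ _) (hne k).symm
  have h1 : ∀ k : ℕ, ∃ a, (q k (e k) * q k a * q k (e k) ≤ (1 / 2) ^ k) ∧
      p n ((((k : ℝ) + 1) * p n (e k) : ℝ) • e k - a) ≤ 1 := by
    intro k
    have hm : (((((k : ℝ) + 1) * p n (e k) : ℝ) : ℂ) • e k) ∈ Sep hp hq :=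
      (Sep hp hq).smul_mem _ (he k)
    set C := q k (e k) * q k (e k) + 1 with hC
    have hC0 : 0 < C := by positivity
    obtain ⟨a, ha1, ha2⟩ := hm (max n k) (min 1 ((1 / 2) ^ k / C)) (lt_min one_pos (by positivity))
    refine ⟨a, ?_, ?_⟩
    · have h2 : q k a ≤ (1 / 2) ^ k / C :=
        ((hq.mono k (max n k) (le_max_right _ _) a).trans ha1.le).trans (min_le_right _ _)
      rw [le_div_iff₀ hC0] at h2
      nlinarith [apply_nonneg (q k) a]
    · have h2 := (hp.mono n (max n k) (le_max_left _ _)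
        ((((((k : ℝ) + 1) * p n (e k) : ℝ) : ℂ) • e k) - a)).trans ha2.le
      exact h2.trans (min_le_left _ _)
  choose a ha1 ha2 using h1
  obtain ⟨z, hz⟩ := series hq (fun k => e k * a k * e k) (by
    intro j k hjk
    refine (hq.mono j k hjk _).trans ?_
    refine (hq.mul k _ _).trans ?_
    refine (mul_le_mul_of_nonneg_right (hq.mul k _ _) (apply_nonneg _ _)).trans ?_
    exact ha1 k)
  have h2 : ∀ k, e k * z * e k = e k * a k * e k := by
    intro k
    rw [← sub_eq_zero]
    refine hq.sep _ fun j => ?_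
    have h3 : Tendsto (fun K => q j (e k) * q j ((∑ i ∈ Finset.range K, e i * a i * e i) - z) *
        q j (e k)) atTop (𝓝 (q j (e k) * 0 * q j (e k))) :=
      ((hz j).const_mul _).mul_const _
    rw [mul_zero, zero_mul] at h3
    refine le_antisymm (ge_of_tendsto h3 ?_) (apply_nonneg _ _)
    filter_upwards [eventually_gt_atTop k] with K hK
    have e1 : e k * (∑ i ∈ Finset.range K, e i * a i * e i) * e k = e k * a k * e k := by
      rw [Finset.mul_sum, Finset.sum_mul, Finset.sum_eq_single k]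
      · rw [← mul_assoc, ← mul_assoc, hid, mul_assoc _ (e k) (e k), hid]
      · intro i _ hik
        rw [← mul_assoc, ← mul_assoc, horth k i (Ne.symm hik)]
        simp
      · intro hk
        exact absurd (Finset.mem_range.2 hK) hk
    have e2 : e k * z * e k - e k * a k * e k =
        - (e k * ((∑ i ∈ Finset.range K, e i * a i * e i) - z) * e k) := by
      rw [mul_sub, sub_mul, e1]; abel
    rw [e2, map_neg_eq_map]
    exact (hq.mul j _ _).trans (mul_le_mul_of_nonneg_right (hq.mul j _ _) (apply_nonneg _ _))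
  have h3 : ∀ k : ℕ, (k : ℝ) ≤ p n z := by
    intro k
    set c : ℝ := ((k : ℝ) + 1) * p n (e k) with hc
    have e1 : e k * a k * e k = (c : ℂ) • e k - e k * ((c : ℂ) • e k - a k) * e k := by
      rw [mul_sub, sub_mul, mul_smul_comm, smul_mul_assoc, hid, hid]; abel
    have h4 : p n (e k * a k * e k) ≤ p n (e k) * p n z * p n (e k) := by
      rw [← h2 k]
      exact (hp.mul n _ _).trans (mul_le_mul_of_nonneg_right (hp.mul n _ _) (apply_nonneg _ _))
    have h5 : p n (e k * ((c : ℂ) • e k - a k) * e k) ≤ p n (e k) * 1 * p n (e k) := by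
      refine (hp.mul n _ _).trans ?_
      refine mul_le_mul_of_nonneg_right ?_ (apply_nonneg _ _)
      refine (hp.mul n _ _).trans ?_
      exact mul_le_mul_of_nonneg_left (ha2 k) (apply_nonneg _ _)
    have h6 : p n ((c : ℂ) • e k) = c * p n (e k) := by
      rw [map_smul_eq_mul, Complex.norm_real, Real.norm_of_nonneg (by positivity)]
    have h7 : p n ((c : ℂ) • e k) ≤ p n (e k * a k * e k) +
        p n (e k * ((c : ℂ) • e k - a k) * e k) := by
      have : (c : ℂ) • e k = e k * a k * e k + e k * ((c : ℂ) • e k - a k) * e k := by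
        rw [e1]; abel
      calc p n ((c : ℂ) • e k) = p n (e k * a k * e k + e k * ((c : ℂ) • e k - a k) * e k) := by
            rw [← this]
        _ ≤ _ := map_add_le_add _ _ _
    rw [h6] at h7
    have h8 : c * p n (e k) ≤ p n (e k) * p n z * p n (e k) + p n (e k) * 1 * p n (e k) := by
      linarith
    have h9 := hpos k
    have h10 : ((k : ℝ) + 1) * (p n (e k) * p n (e k)) ≤
        (p n z + 1) * (p n (e k) * p n (e k)) := by
      rw [hc] at h8; nlinarith
    have h11 := le_of_mul_le_mul_right h10 (by positivity)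
    linarith
  obtain ⟨k, hk⟩ := exists_nat_gt (p n z)
  linarith [h3 k]

end Pool.Helper791.Fre
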