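import Pool.Agent.Helper791Fre.Hump

open Complex Metric Set Filter Topology MeasureTheory

set_option linter.unusedSectionVars false
set_option linter.unusedVariables false

namespace Pool.Helper791.Fre

variable {R : Type*} [Ring R] [Algebra ℂ R]
variable {p q : ℕ → Seminorm ℂ R}

theorem Fam.norm_one (hp : Fam p) (n : ℕ) : ‖(1 : hp.B n)‖ = 1 := by
  rw [← map_one (hp.π n), norm_pi, hp.one]

theorem Fam.unit_of_lt (hp : Fam p) (n : ℕ) {c : ℂ} {x : hp.B n} (h : ‖x‖ < ‖c‖) :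
    IsUnit (algebraMap ℂ (hp.B n) c - x) := by
  rw [← spectrum.mem_resolventSet_iff]
  apply spectrum.mem_resolventSet_of_norm_lt_mul
  rw [hp.norm_one, mul_one]
  exact h

theorem Fam.π_alg (hp : Fam p) (n : ℕ) (c : ℂ) :
    hp.π n (algebraMap ℂ R c) = algebraMap ℂ (hp.B n) c :=
  AlgHom.commutes _ _

/-- the spectral dichotomy -/
theorem unit_of_two (hp : Fam p) (hq : Fam q) (n : ℕ) (s : R) (c : ℂ)
    (h1 : ∃ t : R, p n (s - (c • t - t * s)) < ‖c‖)
    (h2 : ∃ t : R, p n (s - (c • t - s * t)) < ‖c‖) :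
    IsUnit (algebraMap ℂ (hp.B n) c - hp.π n s) := by
  obtain ⟨t, ht⟩ := h1
  obtain ⟨u, hu⟩ := h2
  have k1 : (1 + hp.π n t) * (algebraMap ℂ (hp.B n) c - hp.π n s) =
      algebraMap ℂ (hp.B n) c - hp.π n (s - (c • t - t * s)) := by
    rw [← hp.π_alg, ← map_one (hp.π n), ← map_add, ← map_sub, ← map_mul, ← map_sub]
    congr 1
    rw [Algebra.smul_def, Algebra.commutes c t]
    noncomm_ring
  have k2 : (algebraMap ℂ (hp.B n) c - hp.π n s) * (1 + hp.π n u) =
      algebraMap ℂ (hp.B n) c - hp.π n (s - (c • u - s * u)) := by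
    rw [← hp.π_alg, ← map_one (hp.π n), ← map_add, ← map_sub, ← map_mul, ← map_sub]
    congr 1
    rw [Algebra.smul_def]
    noncomm_ring
  have u1 : IsUnit ((1 + hp.π n t) * (algebraMap ℂ (hp.B n) c - hp.π n s)) := by
    rw [k1]
    apply hp.unit_of_lt
    rwa [norm_pi]
  have u2 : IsUnit ((algebraMap ℂ (hp.B n) c - hp.π n s) * (1 + hp.π n u)) := by
    rw [k2]
    apply hp.unit_of_lt
    rwa [norm_pi]
  obtain ⟨v1, hv1⟩ := u1
  obtain ⟨v2, hv2⟩ := u2
  -- left inverse and right inverse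
  have l : (((v1⁻¹ : (hp.B n)ˣ) : hp.B n) * (1 + hp.π n t)) *
      (algebraMap ℂ (hp.B n) c - hp.π n s) = 1 := by
    rw [mul_assoc, ← hv1, Units.inv_mul]
  have r : (algebraMap ℂ (hp.B n) c - hp.π n s) *
      ((1 + hp.π n u) * ((v2⁻¹ : (hp.B n)ˣ) : hp.B n)) = 1 := by
    rw [← mul_assoc, ← hv2, Units.mul_inv]
  have hlr := left_inv_eq_right_inv l r
  refine ⟨⟨_, _, r, ?_⟩, rfl⟩
  rw [← hlr]; exact l

/-- (A) finite spectrum -/
theorem finite_spec (hp : Fam p) (hq : Fam q) (n : ℕ) {s : R} (hs : s ∈ Sep hp hq) :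
    {c : ℂ | c ≠ 0 ∧ ¬ IsUnit (algebraMap ℂ (hp.B n) c - hp.π n s)}.Finite := by
  by_contra hinf
  set A1 : Set ℂ := {c | c ≠ 0 ∧ ∀ t ∈ Sep hp hq, ‖c‖ ≤ p n (s - (c • t - t * s))} with hA1
  set A2 : Set ℂ := {c | c ≠ 0 ∧ ∀ t ∈ Sep hp hq, ‖c‖ ≤ p n (s - (c • t - s * t))} with hA2
  have hsub : {c : ℂ | c ≠ 0 ∧ ¬ IsUnit (algebraMap ℂ (hp.B n) c - hp.π n s)} ⊆ A1 ∪ A2 := by
    rintro c ⟨hc0, hc⟩
    by_contra hno
    rw [Set.mem_union, not_or] at hno
    apply hc
    apply unit_of_two hp hq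
    · by_contra h
      push Not at h
      exact hno.1 ⟨hc0, fun t _ => h t⟩
    · by_contra h
      push Not at h
      exact hno.2 ⟨hc0, fun t _ => h t⟩
  have hor : A1.Infinite ∨ A2.Infinite := by
    by_contra h
    rw [not_or, Set.not_infinite, Set.not_infinite] at h
    exact hinf ((h.1.union h.2).subset hsub)
  have bq : ∀ j, ∃ C : ℝ, ∀ x, q j (x * s) ≤ C * q j x := fun j =>
    ⟨q j s, fun x => (hq.mul j x s).trans (mul_comm _ _).le⟩
  have bq' : ∀ j, ∃ C : ℝ, ∀ x, q j (s * x) ≤ C * q j x := fun j => ⟨q j s, fun x => hq.mul j s x⟩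
  have bp : ∃ C : ℝ, ∀ x, p n (x * s) ≤ C * p n x :=
    ⟨p n s, fun x => (hp.mul n x s).trans (mul_comm _ _).le⟩
  have bp' : ∃ C : ℝ, ∀ x, p n (s * x) ≤ C * p n x := ⟨p n s, fun x => hp.mul n s x⟩
  rcases hor with h | h
  · refine hump hp hq n (LinearMap.mulRight ℂ s) (LinearMap.mulLeft ℂ s) s hs bq bq' bp'
      (fun t ht => sep_mul_right hp hq s ht) (fun a => sep_mul_right hp hq a hs) rfl
      (fun k => (h.natEmbedding A1 k : ℂ))
      (Subtype.val_injective.comp (h.natEmbedding A1).injective)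
      (fun k => (h.natEmbedding A1 k).2.1) (fun k => ?_)
    exact ⟨‖(h.natEmbedding A1 k : ℂ)‖, norm_pos_iff.2 (h.natEmbedding A1 k).2.1,
      (h.natEmbedding A1 k).2.2⟩
  · refine hump hp hq n (LinearMap.mulLeft ℂ s) (LinearMap.mulRight ℂ s) s hs bq' bq bp
      (fun t ht => sep_mul_left hp hq s ht) (fun a => sep_mul_left hp hq a hs) rfl
      (fun k => (h.natEmbedding A2 k : ℂ))
      (Subtype.val_injective.comp (h.natEmbedding A2).injective)
      (fun k => (h.natEmbedding A2 k).2.1) (fun k => ?_)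
    exact ⟨‖(h.natEmbedding A2 k : ℂ)‖, norm_pos_iff.2 (h.natEmbedding A2 k).2.1,
      (h.natEmbedding A2 k).2.2⟩

/-- isolated points -/
theorem exists_pun (hp : Fam p) (hq : Fam q) (n : ℕ) {s : R} (hs : s ∈ Sep hp hq) {c : ℂ}
    (hc : c ≠ 0) : ∃ r : ℝ, 0 < r ∧ Pun (hp.π n s) c r := by
  have hfin := finite_spec hp hq n hs
  set T : Set ℂ := ({c : ℂ | c ≠ 0 ∧ ¬ IsUnit (algebraMap ℂ (hp.B n) c - hp.π n s)} \ {c}) ∪ {0}
    with hT
  have hTfin : T.Finite := (hfin.subset sdiff_subset).union (finite_singleton 0)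
  have hcT : c ∉ T := by
    rw [hT]
    simp [hc]
  have hopen : IsOpen Tᶜ := hTfin.isClosed.isOpen_compl
  obtain ⟨r, hr, hball⟩ := Metric.isOpen_iff.1 hopen c hcT
  refine ⟨r / 2, by positivity, fun z hz hzr => ?_⟩
  have hz1 : z ∈ Tᶜ := hball (by rw [mem_ball, dist_eq_norm]; linarith)
  by_contra hu
  apply hz1
  by_cases h0 : z = 0
  · right; exact h0
  · left; exact ⟨⟨h0, hu⟩, hz⟩

theorem Fam.φ_unit (hp : Fam p) {n m : ℕ} (h : n ≤ m) {a : hp.B m} (ha : IsUnit a) :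
    IsUnit (hp.φ h a) := by
  obtain ⟨v, rfl⟩ := ha
  refine ⟨⟨hp.φ h v, hp.φ h (v⁻¹ : (hp.B m)ˣ), ?_, ?_⟩, rfl⟩
  · rw [← conn_mul, Units.mul_inv, conn_one]
  · rw [← conn_mul, Units.inv_mul, conn_one]

theorem Fam.φ_π (hp : Fam p) {n m : ℕ} (h : n ≤ m) (x : R) : hp.φ h (hp.π m x) = hp.π n x :=
  conn_pi (hm := hp.mul n) (hq := hp.mul m) (hp.mono n m h) x

theorem Fam.unit_down (hp : Fam p) {n m : ℕ} (h : n ≤ m) {x : R} {z : ℂ}
    (hu : IsUnit (algebraMap ℂ (hp.B m) z - hp.π m x)) :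
    IsUnit (algebraMap ℂ (hp.B n) z - hp.π n x) := by
  have h1 := hp.φ_unit h hu
  rwa [map_sub, ← hp.π_alg, hp.φ_π, hp.φ_π, hp.π_alg] at h1

/-- (B) Riesz idempotents inside the separating space -/
theorem riesz (hp : Fam p) (hq : Fam q) {s : R} (hs : s ∈ Sep hp hq) {c : ℂ} (hc : c ≠ 0)
    (hcs : ¬ IsUnit (algebraMap ℂ R c - s)) :
    ∃ e ∈ Sep hp hq, e ≠ 0 ∧ e * e = e ∧ (∃ h, e = s * h ∧ e = h * s) ∧
      ∀ μ : ℂ, μ ≠ c → ∃ y : R, y * (algebraMap ℂ R μ - s) = e ∧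
        (algebraMap ℂ R μ - s) * y = e := by
  choose r hr hP using fun n => exists_pun hp hq n hs hc
  obtain ⟨e, he⟩ := hp.glue (fun n => la (hp.π n s) c (r n) 0) (by
    intro n m hnm
    have h1 := map_la (hp.φ hnm) (fun a b => conn_mul (hm := hp.mul n) (hq := hp.mul m) _ a b)
      (conn_one (hm := hp.mul n) (hq := hp.mul m) _) (hP m) (hr m) 0
    rw [h1, hp.φ_π]
    -- compare radii
    have hP' : Pun (hp.π n s) c (r m) := fun z hz hzr => hp.unit_down hnm (hP m z hz hzr)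
    rcases le_total (r m) (r n) with h | h
    · exact (la_indep (hP n) (hr m) h 0).symm
    · exact la_indep hP' (hr n) h 0)
  have hidem : e * e = e := hp.inj fun n => by
    rw [map_mul, he]; exact e_idem (hP n) (hr n)
  have hcomm : e * s = s * e := hp.inj fun n => by
    rw [map_mul, map_mul, he]; exact (e_comm (hP n) (hr n) 0).symm
  have hne : e ≠ 0 := by
    rintro rfl
    apply hcs
    refine hp.isUnit fun n => ?_
    by_contra hn
    rw [map_sub, hp.π_alg] at hn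
    refine e_ne_zero (hP n) (hr n) hn ?_
    rw [← he n, map_zero]
  have hoff : ∀ μ : ℂ, μ ≠ c → ∃ y : R, y * (algebraMap ℂ R μ - s) = e ∧
        (algebraMap ℂ R μ - s) * y = e := by
    intro μ hμ
    have hae : algebraMap ℂ R μ * e = e * algebraMap ℂ R μ := Algebra.commutes _ _
    set X : R := (algebraMap ℂ R μ - s) * e + (1 - e) with hX
    have hXu : IsUnit X := by
      refine hp.isUnit fun n => ?_
      obtain ⟨y, hy1, hy2⟩ := e_off (hP n) (hr n) hμ
      set E := la (hp.π n s) c (r n) 0 with hE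
      have hEE : E * E = E := e_idem (hP n) (hr n)
      have hEy : E * y = y * E := by
        calc E * y = (y * (algebraMap ℂ (hp.B n) μ - hp.π n s)) * y := by rw [hy1]
          _ = y * E := by rw [mul_assoc, hy2]
      have hEx : (algebraMap ℂ (hp.B n) μ - hp.π n s) * E =
          E * (algebraMap ℂ (hp.B n) μ - hp.π n s) := by
        calc (algebraMap ℂ (hp.B n) μ - hp.π n s) * E
            = (algebraMap ℂ (hp.B n) μ - hp.π n s) *
                (y * (algebraMap ℂ (hp.B n) μ - hp.π n s)) := by rw [hy1]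
          _ = _ := by rw [← mul_assoc, hy2]
      have hXn : hp.π n X = (algebraMap ℂ (hp.B n) μ - hp.π n s) * E + (1 - E) := by
        rw [hX, map_add, map_mul, map_sub, map_sub, map_one, hp.π_alg, he]
      have hE1 : E * (1 - E) = 0 := by rw [mul_sub, mul_one, hEE, sub_self]
      have hE2 : (1 - E) * E = 0 := by rw [sub_mul, one_mul, hEE, sub_self]
      have hE3 : (1 - E) * (1 - E) = 1 - E := by
        rw [mul_sub, mul_one, hE2, sub_zero]
      rw [hXn]
      refine ⟨⟨_, y * E + (1 - E), ?_, ?_⟩, rfl⟩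
      · rw [add_mul, mul_add, mul_add, hE3]
        have a1 : (algebraMap ℂ (hp.B n) μ - hp.π n s) * E * (y * E) = E := by
          rw [mul_assoc, ← mul_assoc E y E, hEy, mul_assoc, hEE, ← mul_assoc, hy2, hEE]
        have a2 : (algebraMap ℂ (hp.B n) μ - hp.π n s) * E * (1 - E) = 0 := by
          rw [mul_assoc, hE1, mul_zero]
        have a3 : (1 - E) * (y * E) = 0 := by
          rw [← hEy, ← mul_assoc, hE2, zero_mul]
        rw [a1, a2, a3]; abel
      · rw [add_mul, mul_add, mul_add, hE3]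
        have a1 : y * E * ((algebraMap ℂ (hp.B n) μ - hp.π n s) * E) = E := by
          rw [hEx, mul_assoc, ← mul_assoc E E, hEE, ← hEx, ← mul_assoc, hy1, hEE]
        have a2 : y * E * (1 - E) = 0 := by rw [mul_assoc, hE1, mul_zero]
        have a3 : (1 - E) * ((algebraMap ℂ (hp.B n) μ - hp.π n s) * E) = 0 := by
          rw [hEx, ← mul_assoc, hE2, zero_mul]
        rw [a1, a2, a3]; abel
    obtain ⟨Y, hY⟩ := hXu
    have h1e : (1 - e) * e = 0 := by rw [sub_mul, one_mul, hidem, sub_self]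
    have he1 : e * (1 - e) = 0 := by rw [mul_sub, mul_one, hidem, sub_self]
    have hXe : X * e = (algebraMap ℂ R μ - s) * e := by
      rw [hX, add_mul, mul_assoc, hidem, h1e, add_zero]
    have hes : e * (algebraMap ℂ R μ - s) = (algebraMap ℂ R μ - s) * e := by
      rw [mul_sub, sub_mul, hae, hcomm]
    have heX : e * X = X * e := by
      rw [hXe, hX, mul_add, ← mul_assoc, hes, mul_assoc, hidem, he1, add_zero]
    have hYe : ((Y⁻¹ : Rˣ) : R) * e = e * ((Y⁻¹ : Rˣ) : R) := by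
      have : e * (Y : R) = (Y : R) * e := by rw [hY]; exact heX
      calc ((Y⁻¹ : Rˣ) : R) * e = ((Y⁻¹ : Rˣ) : R) * (e * (Y : R)) * ((Y⁻¹ : Rˣ) : R) := by
            rw [mul_assoc, mul_assoc, Units.mul_inv, mul_one]
        _ = e * ((Y⁻¹ : Rˣ) : R) := by rw [this, ← mul_assoc, Units.inv_mul, one_mul]
    refine ⟨((Y⁻¹ : Rˣ) : R) * e, ?_, ?_⟩
    · rw [mul_assoc, hes, ← hXe, ← hY, ← mul_assoc, Units.inv_mul, one_mul]
    · rw [hYe, ← mul_assoc, ← hXe, ← heX, mul_assoc, ← hY, Units.mul_inv, mul_one]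
  obtain ⟨y, hy1, hy2⟩ := hoff 0 hc.symm
  rw [map_zero, zero_sub] at hy1 hy2
  have hh : e = s * (-y) ∧ e = (-y) * s := by
    constructor
    · rw [← hy2]; noncomm_ring
    · rw [← hy1]; noncomm_ring
  refine ⟨e, ?_, hne, hidem, ⟨-y, hh⟩, hoff⟩
  rw [hh.1]
  exact sep_mul_right hp hq _ hs

end Pool.Helper791.Fre
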