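import Pool.Agent.Helper791Fre.Final
import Pool.Agent.Helper791Fre.CG

open Metric Set Filter Topology

set_option linter.unusedSectionVars false
set_option linter.unusedVariables false

namespace Pool.Helper791.Fre

section U

variable {A : Type*} [NonUnitalRing A] [Module ℂ A] [IsScalarTower ℂ A A] [SMulCommClass ℂ A A]

/-- seminorms on the unitization -/
noncomputable def uf (r : ℕ → Seminorm ℂ A) (n : ℕ) : Seminorm ℂ (Unitization ℂ A) :=
  Seminorm.of (fun z => ‖z.fst‖ + cum r n z.snd)
    (fun x y => by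
      rw [Unitization.fst_add, Unitization.snd_add]
      linarith [norm_add_le x.fst y.fst, map_add_le_add (cum r n) x.snd y.snd])
    (fun c x => by
      rw [Unitization.fst_smul, Unitization.snd_smul, norm_smul, map_smul_eq_mul]; ring)

theorem uf_apply (r : ℕ → Seminorm ℂ A) (n : ℕ) (z : Unitization ℂ A) :
    uf r n z = ‖z.fst‖ + cum r n z.snd := rfl

theorem cum_mul (r : ℕ → Seminorm ℂ A) (hr : ∀ n x y, r n (x * y) ≤ r n x * r n y) (n : ℕ)
    (x y : A) : cum r n (x * y) ≤ cum r n x * cum r n y := by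
  rw [cum_apply, cum_apply, Finset.sum_mul]
  refine Finset.sum_le_sum fun i hi => (hr i x y).trans ?_
  exact mul_le_mul_of_nonneg_left (le_cum r (by rw [Finset.mem_range] at hi; omega) y)
    (apply_nonneg _ _)

theorem fam_uf (r : ℕ → Seminorm ℂ A) (hr : ∀ n x y, r n (x * y) ≤ r n x * r n y)
    (hsep : ∀ x, (∀ n, r n x = 0) → x = 0)
    (hcomp : ∀ u : ℕ → A, (∀ n, ∀ ε > 0, ∃ N, ∀ k ≥ N, ∀ l ≥ N, r n (u k - u l) < ε) →
      ∃ x, ∀ n, Tendsto (fun k => r n (u k - x)) atTop (𝓝 0)) : Fam (uf r) where
  mono n m h x := by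
    rw [uf_apply, uf_apply]
    linarith [cum_mono r h x.snd]
  mul n x y := by
    rw [uf_apply, uf_apply, uf_apply, Unitization.fst_mul, Unitization.snd_mul]
    have h1 := map_add_le_add (cum r n) (x.fst • y.snd + y.fst • x.snd) (x.snd * y.snd)
    have h2 := map_add_le_add (cum r n) (x.fst • y.snd) (y.fst • x.snd)
    rw [map_smul_eq_mul, map_smul_eq_mul] at h2
    have h3 := cum_mul r hr n x.snd y.snd
    rw [norm_mul]
    linarith
  one n := by
    rw [uf_apply, Unitization.fst_one, Unitization.snd_one]; simp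
  sep x h := by
    have h1 : ∀ n, ‖x.fst‖ = 0 ∧ cum r n x.snd = 0 := by
      intro n
      have h2 := h n
      rw [uf_apply] at h2
      have h3 := norm_nonneg x.fst
      have h4 := apply_nonneg (cum r n) x.snd
      constructor <;> linarith
    refine Unitization.ext (norm_eq_zero.1 (h1 0).1) ?_
    refine hsep _ fun n => le_antisymm ?_ (apply_nonneg _ _)
    exact (le_cum r (le_refl n) _).trans (h1 n).2.le
  complete u hu := by
    have hf : ∀ k l, (u k - u l).fst = (u k).fst - (u l).fst := fun k l => rfl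
    have hs : ∀ k l, (u k - u l).snd = (u k).snd - (u l).snd := fun k l => rfl
    have c1 : CauchySeq (fun k => (u k).fst) := by
      rw [Metric.cauchySeq_iff]
      intro ε hε
      obtain ⟨N, hN⟩ := hu 0 ε hε
      refine ⟨N, fun k hk l hl => ?_⟩
      have h1 := hN k hk l hl
      rw [uf_apply, hf] at h1
      rw [dist_eq_norm]
      have h2 := apply_nonneg (cum r 0) (u k - u l).snd
      linarith
    obtain ⟨c, hc⟩ := cauchySeq_tendsto_of_complete c1
    obtain ⟨x, hx⟩ := hcomp (fun k => (u k).snd) (by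
      intro n ε hε
      obtain ⟨N, hN⟩ := hu n ε hε
      refine ⟨N, fun k hk l hl => ?_⟩
      have h1 := hN k hk l hl
      rw [uf_apply, hs] at h1
      have h2 := norm_nonneg (u k - u l).fst
      have h3 := le_cum r (le_refl n) ((u k).snd - (u l).snd)
      linarith)
    refine ⟨Unitization.inl c + Unitization.inr x, fun n => ?_⟩
    have h1 : Tendsto (fun k => ‖(u k).fst - c‖) atTop (𝓝 0) := by
      rw [← tendsto_iff_norm_sub_tendsto_zero]; exact hc
    have h2 := cum_tendsto r hx n
    have h3 := h1.add h2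
    rw [add_zero] at h3
    refine h3.congr fun k => ?_
    have e1 : (u k - (Unitization.inl c + Unitization.inr x)).fst = (u k).fst - c := by
      show (u k).fst - (c + 0) = _
      rw [add_zero]
    have e2 : (u k - (Unitization.inl c + Unitization.inr x)).snd = (u k).snd - x := by
      show (u k).snd - (0 + x) = _
      rw [zero_add]
    rw [uf_apply, e1, e2]

end U

theorem frechet_unique (A B : Type*) [NonUnitalRing A] [Module ℂ A] [IsScalarTower ℂ A A]
      [SMulCommClass ℂ A A]
      [UniformSpace A] [IsUniformAddGroup A] [IsTopologicalRing A] [ContinuousSMul ℂ A]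
      [CompleteSpace A] [T2Space A]
      [NonUnitalRing B] [Module ℂ B] [IsScalarTower ℂ B B] [SMulCommClass ℂ B B]
      [UniformSpace B] [IsUniformAddGroup B] [IsTopologicalRing B] [ContinuousSMul ℂ B]
      [CompleteSpace B] [T2Space B]
      (p : ℕ → Seminorm ℂ A) (hp : WithSeminorms p)
      (hpm : ∀ n : ℕ, ∀ x y : A, p n (x * y) ≤ p n x * p n y)
      (q : ℕ → Seminorm ℂ B) (hq : WithSeminorms q)
      (hqm : ∀ n : ℕ, ∀ x y : B, q n (x * y) ≤ q n x * q n y)
      (hss : ∀ a : A, (∀ b : A, ∃ c : A, a * b + c = (a * b) * c ∧ a * b + c = c * (a * b)) →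
        a = 0)
      (φ : A ≃+* B) (hφ : ∀ (z : ℂ) (x : A), φ (z • x) = z • φ x) : Continuous φ := by
  let f : A →ₗ[ℂ] B := { toFun := φ, map_add' := map_add φ, map_smul' := hφ }
  have hfφ : ∀ x, f x = φ x := fun x => rfl
  let r : ℕ → Seminorm ℂ A := fun n => (q n).comp f
  have hr : ∀ n x, r n x = q n (φ x) := fun n x => rfl
  have hpsep : ∀ x, (∀ n, p n x = 0) → x = 0 := by
    intro x hx
    by_contra h
    obtain ⟨i, hi⟩ := hp.separating_of_T1 x h
    exact hi (hx i)
  have hqsep : ∀ x, (∀ n, q n x = 0) → x = 0 := by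
    intro x hx
    by_contra h
    obtain ⟨i, hi⟩ := hq.separating_of_T1 x h
    exact hi (hx i)
  have F1 : Fam (uf p) := fam_uf p hpm hpsep fun u hu => complete_seq hp u hu
  have F2 : Fam (uf r) := by
    refine fam_uf r ?_ ?_ ?_
    · intro n x y
      rw [hr, hr, hr, map_mul]
      exact hqm n _ _
    · intro x hx
      have h1 : φ x = 0 := hqsep _ fun n => hx n
      simpa using h1
    · intro u hu
      obtain ⟨b, hb⟩ := complete_seq hq (fun k => φ (u k)) (by
        intro n ε hε
        obtain ⟨N, hN⟩ := hu n ε hε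
        refine ⟨N, fun k hk l hl => ?_⟩
        have h1 := hN k hk l hl
        rwa [hr, map_sub] at h1)
      refine ⟨φ.symm b, fun n => ?_⟩
      refine (hb n).congr fun k => ?_
      rw [hr, map_sub φ, RingEquiv.apply_symm_apply]
  -- the separating space vanishes
  have hzero : ∀ a : A, (∃ u : ℕ → A, (∀ n, Tendsto (fun k => r n (u k)) atTop (𝓝 0)) ∧
      ∀ n, Tendsto (fun k => p n (a - u k)) atTop (𝓝 0)) → a = 0 := by
    rintro a ⟨u, hu1, hu2⟩
    have hmem : (Unitization.inr a : Unitization ℂ A) ∈ Sep F1 F2 := by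
      intro n ε hε
      have h1 := (cum_tendsto r hu1 n).eventually (gt_mem_nhds hε)
      have h2 := (cum_tendsto p hu2 n).eventually (gt_mem_nhds hε)
      obtain ⟨k, hk1, hk2⟩ := (h1.and h2).exists
      refine ⟨Unitization.inr (u k), ?_, ?_⟩
      · rw [uf_apply]
        simpa using hk1
      · rw [uf_apply]
        have e1 : ((Unitization.inr a : Unitization ℂ A) - Unitization.inr (u k)).fst = 0 :=
          sub_zero (0 : ℂ)
        have e2 : ((Unitization.inr a : Unitization ℂ A) - Unitization.inr (u k)).snd = a - u k :=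
          rfl
        rw [e1, e2, norm_zero, zero_add]
        exact hk2
    refine hss a fun b => ?_
    have hmem2 : (Unitization.inr (a * b) : Unitization ℂ A) ∈ Sep F1 F2 := by
      rw [Unitization.inr_mul]
      exact sep_mul_right F1 F2 _ hmem
    obtain ⟨v, hv⟩ := quasi_regular F1 F2 hmem2
    have e1 : (1 - (Unitization.inr (a * b) : Unitization ℂ A)) *
        ((v⁻¹ : (Unitization ℂ A)ˣ) : Unitization ℂ A) = 1 := by rw [← hv, Units.mul_inv]
    have e2 : ((v⁻¹ : (Unitization ℂ A)ˣ) : Unitization ℂ A) *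
        (1 - (Unitization.inr (a * b) : Unitization ℂ A)) = 1 := by rw [← hv, Units.inv_mul]
    set w : Unitization ℂ A := ((v⁻¹ : (Unitization ℂ A)ˣ) : Unitization ℂ A) with hw
    have d1 : (1 - (Unitization.inr (a * b) : Unitization ℂ A)).fst = 1 := sub_zero (1 : ℂ)
    have d2 : (1 - (Unitization.inr (a * b) : Unitization ℂ A)).snd = -(a * b) :=
      zero_sub (a * b)
    have hwf : w.fst = 1 := by
      have h1 := congrArg (fun z : Unitization ℂ A => z.fst) e1
      simp only [Unitization.fst_mul, Unitization.fst_one] at h1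
      rw [d1, one_mul] at h1
      exact h1
    have s1 := congrArg (fun z : Unitization ℂ A => z.snd) e1
    have s2 := congrArg (fun z : Unitization ℂ A => z.snd) e2
    simp only [Unitization.snd_mul, Unitization.snd_one] at s1 s2
    rw [d1, d2, hwf, one_smul, one_smul] at s1 s2
    refine ⟨- w.snd, ?_, ?_⟩
    · rw [mul_neg, ← neg_mul]
      have : a * b + -w.snd = -(w.snd + -(a * b) + -(a * b) * w.snd) + -(a * b) * w.snd := by abel
      rw [this, s1, neg_zero, zero_add]
    · rw [neg_mul, ← mul_neg]
      have : a * b + -w.snd = -(-(a * b) + w.snd + w.snd * -(a * b)) + w.snd * -(a * b) := by abel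
      rw [this, s2, neg_zero, zero_add]
  -- closed graph
  refine closed_graph hp hq f fun u a b hu1 hu2 n => ?_
  have h0 : a - φ.symm b = 0 := by
    refine hzero _ ⟨fun k => u k - φ.symm b, fun n => ?_, fun n => ?_⟩
    · refine (hu2 n).congr fun k => ?_
      rw [hr, map_sub φ, RingEquiv.apply_symm_apply]
      rfl
    · refine (hu1 n).congr fun k => ?_
      have : a - φ.symm b - (u k - φ.symm b) = -(u k - a) := by abel
      rw [this, map_neg_eq_map]
  have h1 : b = φ a := by
    rw [sub_eq_zero] at h0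
    rw [h0, RingEquiv.apply_symm_apply]
  rw [hfφ, h1, sub_self, map_zero]

end Pool.Helper791.Fre
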